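import Pool.Agent.TH254.FP.Pinch

/-! The projections of a free product. -/

set_option autoImplicit false

open Finset Filter Topology
open scoped InnerProductSpace ComplexConjugate

namespace Pool.Agent.TH254.FP

variable {A ι : Type} [CStarAlgebra A]

/-- alternating centred words in the subalgebras `S i` -/
structure Alt (φ : A →ₗ[ℂ] ℂ) (S : ι → StarSubalgebra ℂ A) (l : List (ι × A)) : Prop where
  mem : ∀ p ∈ l, p.2 ∈ S p.1
  cen : ∀ p ∈ l, φ p.2 = 0
  alt : l.IsChain (fun p q => p.1 ≠ q.1)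

/-- the product of a word -/
def vl (l : List (ι × A)) : A := (l.map Prod.snd).prod

/-- the subalgebras `S i` are free with respect to `φ` -/
def Free (φ : A →ₗ[ℂ] ℂ) (S : ι → StarSubalgebra ℂ A) : Prop :=
  ∀ l : List (ι × A), l ≠ [] → Alt φ S l → φ (vl l) = 0

variable {φ : A →ₗ[ℂ] ℂ} {S : ι → StarSubalgebra ℂ A}

theorem Alt.tail {p : ι × A} {l : List (ι × A)} (h : Alt φ S (p :: l)) : Alt φ S l :=
  ⟨fun q hq => h.mem q (List.mem_cons_of_mem _ hq), fun q hq => h.cen q (List.mem_cons_of_mem _ hq),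
    h.alt.tail⟩

theorem vl_nil : vl ([] : List (ι × A)) = 1 := by simp [vl]

theorem vl_cons (p : ι × A) (l : List (ι × A)) : vl (p :: l) = p.2 * vl l := by simp [vl]

theorem vl_append (l m : List (ι × A)) : vl (l ++ m) = vl l * vl m := by simp [vl]

/-- the adjoint word -/
def adw (l : List (ι × A)) : List (ι × A) := (l.map fun p => (p.1, star p.2)).reverse

theorem vl_adw (l : List (ι × A)) : vl (adw l) = star (vl l) := by
  induction l with
  | nil => simp [adw, vl]
  | cons p l ih =>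
    have : adw (p :: l) = adw l ++ [(p.1, star p.2)] := by simp [adw]
    rw [this, vl_append, ih, vl_cons p l, star_mul, vl_cons, vl_nil, mul_one]

theorem Alt.adw (h0 : ∀ a, φ (star a) = conj (φ a)) {l : List (ι × A)} (h : Alt φ S l) :
    Alt φ S (adw l) := by
  constructor
  · intro p hp
    simp only [FP.adw, List.mem_reverse, List.mem_map] at hp
    obtain ⟨q, hq, rfl⟩ := hp
    exact star_mem (h.mem q hq)
  · intro p hp
    simp only [FP.adw, List.mem_reverse, List.mem_map] at hp
    obtain ⟨q, hq, rfl⟩ := hp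
    simp only
    rw [h0, h.cen q hq, map_zero]
  · rw [FP.adw, List.isChain_reverse, List.isChain_map]
    exact h.alt.imp fun p q hpq => hpq.symm

/-- orthogonality of words -/
theorem Free.orth (hF : Free φ S) (h0 : ∀ a, φ (star a) = conj (φ a)) {l m : List (ι × A)}
    (hl : Alt φ S l) (hm : Alt φ S m) (hne : l ≠ [] ∨ m ≠ [])
    (hh : ∀ p ∈ l.head?, ∀ q ∈ m.head?, p.1 ≠ q.1) : φ (star (vl l) * vl m) = 0 := by
  rw [← vl_adw, ← vl_append]
  have hl' := hl.adw h0
  apply hF
  · intro h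
    rw [List.append_eq_nil_iff] at h
    rcases hne with h1 | h1
    · apply h1
      have := h.1
      simp only [adw, List.reverse_eq_nil_iff, List.map_eq_nil_iff] at this
      exact this
    · exact h1 h.2
  · constructor
    · intro p hp
      rcases List.mem_append.1 hp with h | h
      · exact hl'.mem p h
      · exact hm.mem p h
    · intro p hp
      rcases List.mem_append.1 hp with h | h
      · exact hl'.cen p h
      · exact hm.cen p h
    · rw [List.isChain_append]
      refine ⟨hl'.alt, hm.alt, ?_⟩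
      intro x hx y hy
      simp only [adw, List.getLast?_reverse, List.head?_map, Option.mem_def,
        Option.map_eq_some_iff] at hx
      obtain ⟨p, hp, rfl⟩ := hx
      exact hh p hp y hy

/-- a representation with cyclic vector `ξ` which gives `φ` -/
structure Rep {H : Type} [NormedAddCommGroup H] [InnerProductSpace ℂ H] [CompleteSpace H]
    (φ : A →ₗ[ℂ] ℂ) (π : A →⋆ₐ[ℂ] (H →L[ℂ] H)) (ξ : H) : Prop where
  vec : ∀ a, φ a = ⟪ξ, π a ξ⟫_ℂ
  unit : ‖ξ‖ = 1
  dense : Dense (Set.range fun a => π a ξ)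
  inj : Function.Injective π

variable {H : Type} [NormedAddCommGroup H] [InnerProductSpace ℂ H] [CompleteSpace H]
  {π : A →⋆ₐ[ℂ] (H →L[ℂ] H)} {ξ : H}

theorem Rep.inner (h : Rep φ π ξ) (a b : A) : ⟪π a ξ, π b ξ⟫_ℂ = φ (star a * b) := by
  rw [h.vec, map_mul, map_star]
  exact inner_star_mul _ _ _ _

theorem Rep.star_eq (h : Rep φ π ξ) (a : A) : φ (star a) = conj (φ a) := by
  have h1 := h.inner a 1
  rw [mul_one, map_one] at h1
  rw [← h1, h.vec a, inner_conj_symm]
  rfl

/-- words which start with a letter in `S i` -/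
def Wd (φ : A →ₗ[ℂ] ℂ) (S : ι → StarSubalgebra ℂ A) (i : ι) : Set (List (ι × A)) :=
  {l | Alt φ S l ∧ ∃ p ∈ l.head?, p.1 = i}

/-- the closed span of the words which start with a letter in `S i` -/
def HQ (φ : A →ₗ[ℂ] ℂ) (S : ι → StarSubalgebra ℂ A) (π : A →⋆ₐ[ℂ] (H →L[ℂ] H)) (ξ : H) (i : ι) :
    Submodule ℂ H := (Submodule.span ℂ ((fun l => π (vl l) ξ) '' Wd φ S i)).topologicalClosure

instance (i : ι) : CompleteSpace (HQ φ S π ξ i) := by
  unfold HQ; infer_instance

/-- the projection -/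
noncomputable def QQ (φ : A →ₗ[ℂ] ℂ) (S : ι → StarSubalgebra ℂ A) (π : A →⋆ₐ[ℂ] (H →L[ℂ] H)) (ξ : H)
    (i : ι) : H →L[ℂ] H := (HQ φ S π ξ i).starProjection

theorem QQ_of_mem {l : List (ι × A)} {i : ι} (hl : l ∈ Wd φ S i) :
    QQ φ S π ξ i (π (vl l) ξ) = π (vl l) ξ := by
  unfold QQ
  rw [Submodule.starProjection_eq_self_iff]
  exact Submodule.le_topologicalClosure _ (Submodule.subset_span ⟨l, hl, rfl⟩)

theorem mem_HQ_orth {v : H} {i : ι} (h : ∀ l ∈ Wd φ S i, ⟪π (vl l) ξ, v⟫_ℂ = 0) :
    v ∈ (HQ φ S π ξ i)ᗮ := by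
  rw [Submodule.mem_orthogonal]
  intro u hu
  have hcl : IsClosed {u : H | ⟪u, v⟫_ℂ = 0} := isClosed_eq (by fun_prop) continuous_const
  have hsub : (Submodule.span ℂ ((fun l => π (vl l) ξ) '' Wd φ S i) : Set H) ⊆
      {u : H | ⟪u, v⟫_ℂ = 0} := by
    intro u hu
    induction hu using Submodule.span_induction with
    | mem x hx =>
      obtain ⟨l, hl, rfl⟩ := hx
      exact h l hl
    | zero => exact inner_zero_left _
    | add x y _ _ hx hy =>
      change ⟪x + y, v⟫_ℂ = 0
      rw [inner_add_left, hx, hy, add_zero]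
    | smul c x _ hx =>
      change ⟪c • x, v⟫_ℂ = 0
      rw [inner_smul_left, hx, mul_zero]
  exact hcl.closure_subset_iff.2 hsub hu

theorem Rep.QQ_of_not (h : Rep φ π ξ) (hF : Free φ S) {m : List (ι × A)} (hm : Alt φ S m) {i : ι}
    (hi : ∀ q ∈ m.head?, q.1 ≠ i) : QQ φ S π ξ i (π (vl m) ξ) = 0 := by
  unfold QQ
  rw [Submodule.starProjection_apply_eq_zero_iff]
  refine mem_HQ_orth fun l hl => ?_
  obtain ⟨hl, p, hp, hpi⟩ := hl
  rw [h.inner]
  refine hF.orth h.star_eq hl hm (Or.inl ?_) ?_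
  · intro h0; rw [h0] at hp; simp at hp
  · intro p' hp' q hq
    rw [Option.mem_def] at hp hp'
    rw [hp] at hp'
    obtain rfl := Option.some.inj hp'
    rw [hpi]
    exact (hi q hq).symm

/-- the linear span of the alternating words -/
noncomputable def SW (φ : A →ₗ[ℂ] ℂ) (S : ι → StarSubalgebra ℂ A) : Submodule ℂ A :=
  Submodule.span ℂ {x | ∃ l, Alt φ S l ∧ x = vl l}

theorem SW_mul (h1 : φ 1 = 1) (i : ι) (a : A) (ha : a ∈ S i) (w : A) (hw : w ∈ SW φ S) :
    a * w ∈ SW φ S := by
  have hcen : ∀ b : A, b ∈ S i → (b - φ b • (1 : A)) ∈ S i ∧ φ (b - φ b • (1 : A)) = 0 := by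
    intro b hb
    refine ⟨sub_mem hb ((S i).smul_mem (one_mem _) _), ?_⟩
    rw [map_sub, map_smul, h1, smul_eq_mul, mul_one, sub_self]
  -- a centred letter in front of a word which does not start with `i`
  have hfront : ∀ b : A, b ∈ S i → ∀ l : List (ι × A), Alt φ S l → (∀ q ∈ l.head?, i ≠ q.1) →
      b * vl l ∈ SW φ S := by
    intro b hb l hl hi
    have e : b * vl l = vl ((i, b - φ b • (1 : A)) :: l) + φ b • vl l := by
      rw [vl_cons, sub_mul, smul_mul_assoc, one_mul, sub_add_cancel]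
    rw [e]
    refine Submodule.add_mem _ (Submodule.subset_span ⟨_, ?_, rfl⟩)
      (Submodule.smul_mem _ _ (Submodule.subset_span ⟨l, hl, rfl⟩))
    constructor
    · intro p hp
      rcases List.mem_cons.1 hp with rfl | hp
      · exact (hcen b hb).1
      · exact hl.mem p hp
    · intro p hp
      rcases List.mem_cons.1 hp with rfl | hp
      · exact (hcen b hb).2
      · exact hl.cen p hp
    · cases l with
      | nil => exact List.isChain_singleton _
      | cons q l => exact List.isChain_cons_cons.2 ⟨hi q (by simp), hl.alt⟩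
  induction hw using Submodule.span_induction with
  | mem x hx =>
    obtain ⟨l, hl, rfl⟩ := hx
    cases l with
    | nil => exact hfront a ha [] hl (by simp)
    | cons q l =>
      by_cases hq : i = q.1
      · rw [vl_cons, ← mul_assoc]
        have hne : ∀ r ∈ l.head?, i ≠ r.1 := by
          intro r hr
          cases l with
          | nil => simp at hr
          | cons r' l' =>
            simp only [List.head?_cons, Option.mem_def, Option.some.injEq] at hr
            subst hr
            rw [hq]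
            exact (List.isChain_cons_cons.1 hl.alt).1
        refine hfront (a * q.2) (mul_mem ha ?_) l hl.tail hne
        rw [hq]
        exact hl.mem q (by simp)
      · refine hfront a ha (q :: l) hl ?_
        intro r hr
        simp only [List.head?_cons, Option.mem_def, Option.some.injEq] at hr
        subst hr
        exact hq
  | zero => rw [mul_zero]; exact Submodule.zero_mem _
  | add x y _ _ hx hy => rw [mul_add]; exact Submodule.add_mem _ hx hy
  | smul c x _ hx => rw [mul_smul_comm]; exact Submodule.smul_mem _ _ hx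

theorem adjoin_sub_SW (h1 : φ 1 = 1) (x : A)
    (hx : x ∈ StarAlgebra.adjoin ℂ (⋃ i, (S i : Set A))) : x ∈ SW φ S := by
  have key : ∀ x ∈ Algebra.adjoin ℂ (⋃ i, (S i : Set A)), ∀ w ∈ SW φ S, x * w ∈ SW φ S := by
    intro x hx
    induction hx using Algebra.adjoin_induction with
    | mem y hy =>
      intro w hw
      obtain ⟨i, hi⟩ := Set.mem_iUnion.1 hy
      exact SW_mul h1 i y hi w hw
    | algebraMap r =>
      intro w hw
      rw [Algebra.algebraMap_eq_smul_one, smul_mul_assoc, one_mul]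
      exact Submodule.smul_mem _ _ hw
    | add y z _ _ hy hz =>
      intro w hw
      rw [add_mul]
      exact Submodule.add_mem _ (hy w hw) (hz w hw)
    | mul y z _ _ hy hz =>
      intro w hw
      rw [mul_assoc]
      exact hy _ (hz w hw)
  have hstar : star (⋃ i, (S i : Set A)) = ⋃ i, (S i : Set A) := by
    ext y
    simp only [Set.mem_star, Set.mem_iUnion, SetLike.mem_coe]
    exact ⟨fun ⟨i, hi⟩ => ⟨i, by simpa using star_mem hi⟩, fun ⟨i, hi⟩ => ⟨i, star_mem hi⟩⟩
  have hx' : x ∈ Algebra.adjoin ℂ (⋃ i, (S i : Set A)) := by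
    have := (StarAlgebra.adjoin_toSubalgebra ℂ (⋃ i, (S i : Set A)))
    rw [hstar, Set.union_self] at this
    rw [← this]
    exact hx
  have h2 := key x hx' 1 (Submodule.subset_span ⟨[], ⟨by simp, by simp, by simp⟩, by simp [vl]⟩)
  rwa [mul_one] at h2

theorem SW_dense (h1 : φ 1 = 1)
    (hgen : (StarAlgebra.adjoin ℂ (⋃ i, (S i : Set A))).topologicalClosure = ⊤) :
    (SW φ S).topologicalClosure = ⊤ := by
  rw [eq_top_iff]
  intro x _
  have hx : x ∈ (StarAlgebra.adjoin ℂ (⋃ i, (S i : Set A))).topologicalClosure := by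
    rw [hgen]; trivial
  have hx2 : x ∈ closure ((StarAlgebra.adjoin ℂ (⋃ i, (S i : Set A)) : StarSubalgebra ℂ A) : Set A) := hx
  exact closure_mono (fun y hy => adjoin_sub_SW h1 y hy) hx2

/-- the centred letters of `S i`, in the representation -/
def TT (φ : A →ₗ[ℂ] ℂ) (S : ι → StarSubalgebra ℂ A) (π : A →⋆ₐ[ℂ] (H →L[ℂ] H)) (i : ι) :
    Set (H →L[ℂ] H) := {t | ∃ a ∈ S i, φ a = 0 ∧ t = π a}

theorem Rep.map_one (h : Rep φ π ξ) : φ 1 = 1 := by
  rw [h.vec, _root_.map_one]
  change ⟪ξ, ξ⟫_ℂ = 1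
  rw [inner_self_eq_norm_sq_to_K, h.unit]
  simp

/-- two operators which agree on the words are equal -/
theorem Rep.ext (h : Rep φ π ξ)
    (hgen : (StarAlgebra.adjoin ℂ (⋃ i, (S i : Set A))).topologicalClosure = ⊤)
    {X Y : H →L[ℂ] H} (hXY : ∀ l, Alt φ S l → X (π (vl l) ξ) = Y (π (vl l) ξ)) : X = Y := by
  have h1 := SW_dense h.map_one hgen
  have hcont : ∀ Z : H →L[ℂ] H, Continuous fun a : A => Z (π a ξ) := by
    intro Z
    have hπ : Continuous π := by
      refine AddMonoidHomClass.continuous_of_bound π 1 fun x => ?_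
      rw [one_mul]
      exact NonUnitalStarAlgHom.norm_apply_le π x
    exact Z.continuous.comp ((ContinuousLinearMap.apply ℂ H ξ).continuous.comp hπ)
  have h2 : ∀ a ∈ SW φ S, X (π a ξ) = Y (π a ξ) := by
    intro a ha
    induction ha using Submodule.span_induction with
    | mem x hx => obtain ⟨l, hl, rfl⟩ := hx; exact hXY l hl
    | zero => simp
    | add x y _ _ hx hy => simp [hx, hy]
    | smul c x _ hx => simp [hx]
  have h3 : ∀ a : A, X (π a ξ) = Y (π a ξ) := by
    intro a
    have hcl : IsClosed {a : A | X (π a ξ) = Y (π a ξ)} := isClosed_eq (hcont X) (hcont Y)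
    have ha : a ∈ (SW φ S).topologicalClosure := by rw [h1]; trivial
    exact hcl.closure_subset_iff.2 h2 ha
  refine ContinuousLinearMap.ext fun v => ?_
  have hcl : IsClosed {v : H | X v = Y v} := isClosed_eq X.continuous Y.continuous
  have hv : v ∈ closure (Set.range fun a => π a ξ) := h.dense v
  refine hcl.closure_subset_iff.2 ?_ hv
  rintro _ ⟨a, rfl⟩
  exact h3 a

theorem Rep.cen (h : Rep φ π ξ) (hF : Free φ S)
    (hgen : (StarAlgebra.adjoin ℂ (⋃ i, (S i : Set A))).topologicalClosure = ⊤)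
    {i : ι} {a : A} (ha : a ∈ S i) (ha0 : φ a = 0) :
    (1 - QQ φ S π ξ i) * π a * (1 - QQ φ S π ξ i) = 0 := by
  refine h.ext hgen fun l hl => ?_
  change (1 - QQ φ S π ξ i) (π a ((1 - QQ φ S π ξ i) (π (vl l) ξ))) = 0
  by_cases hi : ∃ p ∈ l.head?, p.1 = i
  · have : (1 - QQ φ S π ξ i) (π (vl l) ξ) = 0 := by
      change π (vl l) ξ - QQ φ S π ξ i (π (vl l) ξ) = 0
      rw [QQ_of_mem ⟨hl, hi⟩, sub_self]
    rw [this]; simp
  · have hi' : ∀ q ∈ l.head?, q.1 ≠ i := fun q hq hqi => hi ⟨q, hq, hqi⟩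
    have e1 : (1 - QQ φ S π ξ i) (π (vl l) ξ) = π (vl l) ξ := by
      change π (vl l) ξ - QQ φ S π ξ i (π (vl l) ξ) = _
      rw [h.QQ_of_not hF hl hi', sub_zero]
    have e2 : π a (π (vl l) ξ) = π (vl ((i, a) :: l)) ξ := by
      rw [vl_cons, map_mul]; rfl
    rw [e1, e2]
    change π (vl ((i, a) :: l)) ξ - QQ φ S π ξ i (π (vl ((i, a) :: l)) ξ) = 0
    rw [QQ_of_mem, sub_self]
    refine ⟨⟨?_, ?_, ?_⟩, (i, a), by simp, rfl⟩
    · intro p hp
      rcases List.mem_cons.1 hp with rfl | hp
      · exact ha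
      · exact hl.mem p hp
    · intro p hp
      rcases List.mem_cons.1 hp with rfl | hp
      · exact ha0
      · exact hl.cen p hp
    · cases l with
      | nil => exact List.isChain_singleton _
      | cons q l => exact List.isChain_cons_cons.2 ⟨(hi' q (by simp)).symm, hl.alt⟩

theorem Rep.fq (h : Rep φ π ξ) (hF : Free φ S)
    (hgen : (StarAlgebra.adjoin ℂ (⋃ i, (S i : Set A))).topologicalClosure = ⊤) :
    FQ (QQ φ S π ξ) ξ (TT φ S π) where
  sa i := isSelfAdjoint_starProjection _
  idem i := Submodule.isIdempotentElem_starProjection _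
  orth i j hij := by
    refine h.ext hgen fun l hl => ?_
    change QQ φ S π ξ i (QQ φ S π ξ j (π (vl l) ξ)) = 0
    by_cases hj : ∃ p ∈ l.head?, p.1 = j
    · rw [QQ_of_mem ⟨hl, hj⟩]
      refine h.QQ_of_not hF hl ?_
      obtain ⟨p, hp, hpj⟩ := hj
      intro q hq
      rw [Option.mem_def] at hp hq
      rw [hp] at hq
      obtain rfl := Option.some.inj hq
      rw [hpj]
      exact hij.symm
    · rw [h.QQ_of_not hF hl fun q hq hqi => hj ⟨q, hq, hqi⟩, map_zero]
  vac i := by
    have := h.QQ_of_not hF (m := []) ⟨by simp, by simp, by simp⟩ (i := i) (by simp)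
    rw [vl_nil, _root_.map_one] at this
    exact this
  unit := h.unit
  adj i t ht := by
    obtain ⟨a, ha, ha0, rfl⟩ := ht
    exact ⟨star a, star_mem ha, by rw [h.star_eq, ha0, map_zero], (map_star _ _).symm⟩
  cen i t ht := by
    obtain ⟨a, ha, ha0, rfl⟩ := ht
    exact h.cen hF hgen ha ha0
  gram i s hs t ht := by
    obtain ⟨a, ha, ha0, rfl⟩ := hs
    obtain ⟨b, hb, hb0, rfl⟩ := ht
    refine ⟨φ (star a * b), ?_⟩
    have hab : star a * b ∈ S i := mul_mem (star_mem ha) hb
    have h1 : (star a * b - φ (star a * b) • (1 : A)) ∈ S i := sub_mem hab ((S i).smul_mem (one_mem _) _)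
    have h2 : φ (star a * b - φ (star a * b) • (1 : A)) = 0 := by
      rw [map_sub, map_smul, h.map_one, smul_eq_mul, mul_one, sub_self]
    have h3 := h.cen hF hgen h1 h2
    have hid : (1 - QQ φ S π ξ i) * (1 - QQ φ S π ξ i) = 1 - QQ φ S π ξ i := by
      have h4 : QQ φ S π ξ i * QQ φ S π ξ i = QQ φ S π ξ i :=
        Submodule.isIdempotentElem_starProjection _
      have h5 : (1 - QQ φ S π ξ i) * (1 - QQ φ S π ξ i) =
        1 - QQ φ S π ξ i - QQ φ S π ξ i + QQ φ S π ξ i * QQ φ S π ξ i := by noncomm_ring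
      rw [h5, h4]; abel
    rw [map_sub, map_smul, _root_.map_one, map_mul, map_star] at h3
    have h6 : (1 - QQ φ S π ξ i) * (star (π a) * π b) * (1 - QQ φ S π ξ i) =
        (1 - QQ φ S π ξ i) * (star (π a) * π b - φ (star a * b) • (1 : H →L[ℂ] H)) *
          (1 - QQ φ S π ξ i) + φ (star a * b) • ((1 - QQ φ S π ξ i) * (1 - QQ φ S π ξ i)) := by
      rw [mul_sub (1 - QQ φ S π ξ i), sub_mul _ _ (1 - QQ φ S π ξ i), mul_smul_comm,
        smul_mul_assoc, mul_one, sub_add_cancel]
    rw [h6, h3, hid, zero_add]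

end Pool.Agent.TH254.FP
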