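import Pool.Agent.TH254.FP.Gns

/-! Classes of elements whose Moebius sums are small, uniformly over all rotations. -/

set_option autoImplicit false

open Finset Filter Topology
open scoped InnerProductSpace ComplexConjugate

namespace Pool.Agent.TH254.FP

/-- the Moebius function -/
noncomputable def mob (n : ℕ) : ℂ := ((ArithmeticFunction.moebius n : ℤ) : ℂ)

theorem norm_mob (n : ℕ) : ‖mob n‖ ≤ 1 := by
  rw [mob, Complex.norm_intCast]
  exact_mod_cast ArithmeticFunction.abs_moebius_le_one (n := n)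

/-- the twisted Moebius sum of the orbit of `x` -/
noncomputable def ms {A : Type} [CStarAlgebra A] (f : A → A) (x : A) (N : ℕ) (z : ℂ) : A :=
  ∑ n ∈ Icc 1 N, (mob n * z ^ n) • f^[n] x

theorem sum_range_Icc {E : Type} [AddCommMonoid E] (f : ℕ → E) (h0 : f 0 = 0) (N : ℕ) :
    ∑ n ∈ range (N + 1), f n = ∑ n ∈ Icc 1 N, f n := by
  have : range (N + 1) = insert 0 (Icc 1 N) := by
    ext n; simp only [mem_range, mem_insert, mem_Icc]; omega
  rw [this, sum_insert (by simp), h0, zero_add]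

/-- a family of bounds -/
structure Gauge (G : (ℕ → ℝ) → Prop) : Prop where
  add : ∀ B B', G B → G B' → G (fun N => B N + B' N)
  smul : ∀ (c : ℝ) B, 0 ≤ c → G B → G (fun N => c * B N)
  one : G (fun _ => 1)
  mono : ∀ B B' : ℕ → ℝ, (∀ N, B N ≤ B' N) → G B' → G B

/-- the elements whose twisted Moebius sums satisfy a bound from `G` -/
def Cls {A : Type} [CStarAlgebra A] (G : (ℕ → ℝ) → Prop) (f : A → A) (x : A) : Prop :=
  ∃ B : ℕ → ℝ, G B ∧ ∀ N : ℕ, ∀ z : ℂ, ‖z‖ = 1 → ‖ms f x N z‖ ≤ B N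

variable {A ι : Type} [CStarAlgebra A] {G : (ℕ → ℝ) → Prop}

theorem Cls.congr_bound {f : A → A} {x : A} {B : ℕ → ℝ}
    (h : ∀ N : ℕ, ∀ z : ℂ, ‖z‖ = 1 → ‖ms f x N z‖ ≤ B N) (N : ℕ) : 0 ≤ B N :=
  (norm_nonneg _).trans (h N 1 norm_one)

section hom

variable {F : Type} [FunLike F A A] [AlgHomClass F ℂ A A] (f : F)

omit [FunLike F A A] [AlgHomClass F ℂ A A] in
theorem iter_map {F : Type} [FunLike F A A] [AlgHomClass F ℂ A A] (f : F) (n : ℕ) :
    (∀ x y : A, (⇑f)^[n] (x + y) = (⇑f)^[n] x + (⇑f)^[n] y) ∧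
    (∀ (c : ℂ) (x : A), (⇑f)^[n] (c • x) = c • (⇑f)^[n] x) ∧
    (∀ x y : A, (⇑f)^[n] (x * y) = (⇑f)^[n] x * (⇑f)^[n] y) ∧ (⇑f)^[n] (1 : A) = 1 := by
  induction n with
  | zero => simp
  | succ n ih =>
    obtain ⟨h1, h2, h3, h4⟩ := ih
    refine ⟨fun x y => ?_, fun c x => ?_, fun x y => ?_, ?_⟩
    · rw [Function.iterate_succ_apply', Function.iterate_succ_apply', Function.iterate_succ_apply',
        h1, map_add]
    · rw [Function.iterate_succ_apply', Function.iterate_succ_apply', h2, map_smul]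
    · rw [Function.iterate_succ_apply', Function.iterate_succ_apply', Function.iterate_succ_apply',
        h3, map_mul]
    · rw [Function.iterate_succ_apply', h4, map_one]

theorem ms_add (x y : A) (N : ℕ) (z : ℂ) : ms f (x + y) N z = ms f x N z + ms f y N z := by
  unfold ms
  rw [← sum_add_distrib]
  exact sum_congr rfl fun n _ => by rw [(iter_map f n).1, smul_add]

theorem ms_smul (c : ℂ) (x : A) (N : ℕ) (z : ℂ) : ms f (c • x) N z = c • ms f x N z := by
  unfold ms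
  rw [smul_sum]
  exact sum_congr rfl fun n _ => by rw [(iter_map f n).2.1, smul_comm]

variable {f}

theorem Cls.add (hG : Gauge G) {x y : A} (hx : Cls G f x) (hy : Cls G f y) : Cls G f (x + y) := by
  obtain ⟨B, h1, h2⟩ := hx
  obtain ⟨B', h1', h2'⟩ := hy
  refine ⟨_, hG.add B B' h1 h1', fun N z hz => ?_⟩
  rw [ms_add]
  exact (norm_add_le _ _).trans (add_le_add (h2 N z hz) (h2' N z hz))

theorem Cls.smul (hG : Gauge G) (c : ℂ) {x : A} (hx : Cls G f x) : Cls G f (c • x) := by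
  obtain ⟨B, h1, h2⟩ := hx
  refine ⟨_, hG.smul ‖c‖ B (norm_nonneg _) h1, fun N z hz => ?_⟩
  rw [ms_smul, norm_smul]
  exact mul_le_mul_of_nonneg_left (h2 N z hz) (norm_nonneg _)

theorem Cls.zero (hG : Gauge G) : Cls G f 0 := by
  refine ⟨_, hG.one, fun N z _ => ?_⟩
  have : ms f (0 : A) N z = 0 := by
    have := ms_smul f 0 (0 : A) N z
    simpa using this
  rw [this, norm_zero]
  exact zero_le_one

theorem Cls.span (hG : Gauge G) {s : Set A} (hs : ∀ x ∈ s, Cls G f x) :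
    ∀ x ∈ Submodule.span ℂ s, Cls G f x := by
  intro x hx
  induction hx using Submodule.span_induction with
  | mem x hx => exact hs x hx
  | zero => exact Cls.zero hG
  | add x y _ _ hx hy => exact hx.add hG hy
  | smul c x _ hx => exact hx.smul hG c

end hom

/-- bounds which are `o(N)` -/
def Go (B : ℕ → ℝ) : Prop := ∀ ε : ℝ, 0 < ε → ∃ N₀ : ℕ, ∀ N ≥ N₀, B N ≤ ε * N

theorem gauge_Go : Gauge Go where
  add B B' h h' ε hε := by
    obtain ⟨N1, h1⟩ := h (ε / 2) (by positivity)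
    obtain ⟨N2, h2⟩ := h' (ε / 2) (by positivity)
    refine ⟨max N1 N2, fun N hN => ?_⟩
    have g1 := h1 N ((le_max_left _ _).trans hN)
    have g2 := h2 N ((le_max_right _ _).trans hN)
    simp only
    linarith
  smul c B hc h ε hε := by
    obtain ⟨N1, h1⟩ := h (ε / (c + 1)) (by positivity)
    refine ⟨N1, fun N hN => ?_⟩
    have g1 := h1 N hN
    calc c * B N ≤ c * (ε / (c + 1) * N) := by gcongr
      _ = (c / (c + 1)) * (ε * N) := by ring
      _ ≤ 1 * (ε * N) := by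
        gcongr
        rw [div_le_one (by positivity)]
        linarith
      _ = _ := one_mul _
  one ε hε := by
    obtain ⟨n, hn⟩ := exists_nat_gt (1 / ε)
    refine ⟨n, fun N hN => ?_⟩
    have h1 : (n : ℝ) ≤ N := by exact_mod_cast hN
    rw [div_lt_iff₀ hε] at hn
    nlinarith
  mono B B' hB h ε hε := by
    obtain ⟨N1, h1⟩ := h ε hε
    exact ⟨N1, fun N hN => (hB N).trans (h1 N hN)⟩

/-- the elements which are Moebius disjoint in norm, uniformly over the rotations -/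
def UD {A : Type} [CStarAlgebra A] (f : A → A) (x : A) : Prop :=
  ∀ ε : ℝ, 0 < ε → ∃ N₀ : ℕ, ∀ N ≥ N₀, ∀ z : ℂ, ‖z‖ = 1 → ‖ms f x N z‖ ≤ ε * N

theorem norm_ms_le {f : A → A} (hf : ∀ x, ‖f x‖ ≤ ‖x‖) (x : A) (N : ℕ) {z : ℂ} (hz : ‖z‖ = 1) :
    ‖ms f x N z‖ ≤ N * ‖x‖ := by
  have hi : ∀ n : ℕ, ‖f^[n] x‖ ≤ ‖x‖ := by
    intro n
    induction n with
    | zero => simp
    | succ n ih => rw [Function.iterate_succ_apply']; exact (hf _).trans ih
  unfold ms
  refine (norm_sum_le _ _).trans ?_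
  calc ∑ n ∈ Icc 1 N, ‖(mob n * z ^ n) • f^[n] x‖ ≤ ∑ n ∈ Icc 1 N, ‖x‖ := by
        refine sum_le_sum fun n _ => ?_
        rw [norm_smul, norm_mul, norm_pow, hz, one_pow, mul_one]
        calc ‖mob n‖ * ‖f^[n] x‖ ≤ 1 * ‖x‖ := by
              gcongr
              · exact norm_mob n
              · exact hi n
          _ = ‖x‖ := one_mul _
    _ = N * ‖x‖ := by simp

theorem UD_iff {f : A → A} (hf : ∀ x, ‖f x‖ ≤ ‖x‖) (x : A) : UD f x ↔ Cls Go f x := by
  constructor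
  · intro h
    have hbdd : ∀ N, BddAbove (Set.range fun z : {z : ℂ // ‖z‖ = 1} => ‖ms f x N z‖) := by
      intro N
      refine ⟨N * ‖x‖, ?_⟩
      rintro _ ⟨z, rfl⟩
      exact norm_ms_le hf x N z.2
    have : Nonempty {z : ℂ // ‖z‖ = 1} := ⟨⟨1, norm_one⟩⟩
    refine ⟨fun N => ⨆ z : {z : ℂ // ‖z‖ = 1}, ‖ms f x N z‖, fun ε hε => ?_, fun N z hz => ?_⟩
    · obtain ⟨N0, h0⟩ := h ε hε
      refine ⟨N0, fun N hN => ?_⟩
      exact ciSup_le fun z => h0 N hN z z.2
    · exact le_ciSup (hbdd N) ⟨z, hz⟩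
  · rintro ⟨B, h1, h2⟩ ε hε
    obtain ⟨N0, h0⟩ := h1 ε hε
    exact ⟨N0, fun N hN z hz => (h2 N z hz).trans (h0 N hN)⟩

theorem UD.closed {F : Type} [FunLike F A A] [AlgHomClass F ℂ A A] {f : F}
    (hf : ∀ x, ‖f x‖ ≤ ‖x‖) {s : Set A} (hs : ∀ x ∈ s, UD f x) :
    ∀ x ∈ (Submodule.span ℂ s).topologicalClosure, UD f x := by
  intro x hx ε hε
  have hx' : x ∈ closure ((Submodule.span ℂ s : Submodule ℂ A) : Set A) := hx
  obtain ⟨y, hy, hxy⟩ := Metric.mem_closure_iff.1 hx' (ε / 2) (by positivity)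
  have hy' : UD f y := (UD_iff hf y).2
    (Cls.span gauge_Go (fun x hx => (UD_iff hf x).1 (hs x hx)) y hy)
  obtain ⟨N1, h1⟩ := hy' (ε / 2) (by positivity)
  refine ⟨N1, fun N hN z hz => ?_⟩
  have g1 := h1 N hN z hz
  have g2 := norm_ms_le hf (x - y) N hz
  have e : ms f x N z = ms f (x - y) N z + ms f y N z := by
    rw [← ms_add, sub_add_cancel]
  rw [e]
  refine (norm_add_le _ _).trans ?_
  rw [dist_eq_norm] at hxy
  have : (N : ℝ) * ‖x - y‖ ≤ N * (ε / 2) := by gcongr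
  linarith

section free

variable {φ : A →ₗ[ℂ] ℂ} {S : ι → StarSubalgebra ℂ A}
variable {H : Type} [NormedAddCommGroup H] [InnerProductSpace ℂ H] [CompleteSpace H]
  {π : A →⋆ₐ[ℂ] (H →L[ℂ] H)} {ξ : H} {σ : Equiv.Perm ι} {α : A ≃⋆ₐ[ℂ] A}

theorem pow_eq_iter (α : A ≃⋆ₐ[ℂ] A) (n : ℕ) (x : A) : (α ^ n) x = (⇑α)^[n] x := by
  induction n generalizing x with
  | zero => rfl
  | succ n ih =>
    rw [Function.iterate_succ_apply, ← ih, pow_succ]
    rfl

theorem Rep.cls_words_aux (hr : Rep φ π ξ) (hF : Free φ S)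
    (hgen : (StarAlgebra.adjoin ℂ (⋃ i, (S i : Set A))).topologicalClosure = ⊤)
    (h : Perm φ S σ α) (hG : Gauge G) (hone : Cls G α (1 : A))
    (hper : ∀ i, (∃ m : ℕ, 0 < m ∧ (σ ^ m) i = i) → ∀ a ∈ S i, Cls G α a)
    (l : List (ι × A)) (hl : Alt φ S l) (hn : ∀ p ∈ l, ‖p.2‖ ≤ 1) : Cls G α (vl l) := by
  -- a common bound for the letters
  have hB1 : ∃ B1 : ℕ → ℝ, G B1 ∧ (∀ N, 1 ≤ B1 N) ∧ ∀ p ∈ l,
      (∃ m : ℕ, 0 < m ∧ (σ ^ m) p.1 = p.1) → ∀ N : ℕ, ∀ z : ℂ, ‖z‖ = 1 → ‖ms α p.2 N z‖ ≤ B1 N := by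
    have hmem := hl.mem
    clear hl hn
    induction l with
    | nil => exact ⟨fun _ => 1, hG.one, fun _ => le_rfl, by simp⟩
    | cons q l ih =>
      obtain ⟨B, hB, hB', hB''⟩ := ih fun p hp => hmem p (List.mem_cons_of_mem _ hp)
      by_cases hq : ∃ m : ℕ, 0 < m ∧ (σ ^ m) q.1 = q.1
      · obtain ⟨C, hC, hC'⟩ := hper q.1 hq q.2 (hmem q (by simp))
        have hC0 : ∀ N, 0 ≤ C N := Cls.congr_bound hC'
        refine ⟨_, hG.add B C hB hC, fun N => ?_, ?_⟩
        · have := hB' N; have := hC0 N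
          linarith
        · intro p hp hpp N z hz
          rcases List.mem_cons.1 hp with rfl | hp
          · have := hC' N z hz; have := hB' N
            linarith
          · have := hB'' p hp hpp N z hz; have := hC0 N
            linarith
      · refine ⟨B, hB, hB', fun p hp hpp => ?_⟩
        rcases List.mem_cons.1 hp with rfl | hp
        · exact absurd hpp hq
        · exact hB'' p hp hpp
  obtain ⟨B1, hB1, hB1', hB1''⟩ := hB1
  obtain ⟨B0, hB0, hB0'⟩ := hone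
  refine ⟨_, hG.add _ _ (hG.smul (l.length + 1) B0 (by positivity) hB0)
    (hG.smul l.length B1 (by positivity) hB1), fun N z hz => ?_⟩
  have hms : ∀ x : A, ∀ w : ℂ, ∑ n ∈ range (N + 1), (mob n * w ^ n) • (α ^ n) x = ms α x N w := by
    intro x w
    rw [sum_range_Icc _ (by simp [mob]), ms]
    exact sum_congr rfl fun n _ => by rw [pow_eq_iter]
  have hm1 : ∀ w : ℂ, ms α (1 : A) N w = (∑ n ∈ range (N + 1), mob n * w ^ n) • (1 : A) := by
    intro w
    rw [← hms, sum_smul]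
    exact sum_congr rfl fun n _ => by rw [pow_eq_iter, (iter_map α n).2.2.2]
  have hnt : Nontrivial A := by
    refine ⟨1, 0, fun h0 => ?_⟩
    have := hr.map_one
    rw [h0, map_zero] at this
    exact zero_ne_one this
  have key := hr.word_bound hF hgen h l hl hn (N + 1) (fun n => mob n * z ^ n) (fun n => by
    rw [norm_mul, norm_pow, hz, one_pow, mul_one]; exact norm_mob n) (B0 N) (B1 N) (by
    intro w hw
    have h1 := hB0' N (w * z) (by rw [norm_mul, hw, hz, one_mul])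
    rw [hm1, norm_smul, norm_one, mul_one] at h1
    refine (le_of_eq ?_).trans h1
    congr 1
    exact sum_congr rfl fun n _ => by rw [mul_pow]; ring) (hB1' N) (by
    intro p hp hpp w hw
    have h1 := hB1'' p hp hpp N (w * z) (by rw [norm_mul, hw, hz, one_mul])
    rw [← hms] at h1
    refine (le_of_eq ?_).trans h1
    congr 1
    exact sum_congr rfl fun n _ => by rw [mul_pow]; congr 1; ring)
  rw [← hms]
  exact key

theorem Rep.cls_words (hr : Rep φ π ξ) (hF : Free φ S)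
    (hgen : (StarAlgebra.adjoin ℂ (⋃ i, (S i : Set A))).topologicalClosure = ⊤)
    (h : Perm φ S σ α) (hG : Gauge G) (hone : Cls G α (1 : A))
    (hper : ∀ i, (∃ m : ℕ, 0 < m ∧ (σ ^ m) i = i) → ∀ a ∈ S i, Cls G α a)
    (l : List (ι × A)) (hl : Alt φ S l) : Cls G α (vl l) := by
  have hsc : ∀ l : List (ι × A), ∃ c : ℂ,
      vl l = c • vl (l.map fun p => (p.1, ((‖p.2‖⁻¹ : ℝ) : ℂ) • p.2)) := by
    intro l
    induction l with
    | nil => exact ⟨1, by simp [vl]⟩
    | cons p l ih =>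
      obtain ⟨c, hc⟩ := ih
      refine ⟨(‖p.2‖ : ℂ) * c, ?_⟩
      rw [vl_cons, hc, List.map_cons, vl_cons]
      simp only
      rw [mul_smul_comm, smul_mul_assoc, smul_smul]
      by_cases h0 : p.2 = 0
      · rw [h0]; simp
      · have : (‖p.2‖ : ℂ) ≠ 0 := by
          have := norm_ne_zero_iff.2 h0
          exact_mod_cast this
        congr 1
        push_cast
        field_simp
  obtain ⟨c, hc⟩ := hsc l
  rw [hc]
  refine Cls.smul hG c (hr.cls_words_aux hF hgen h hG hone hper _ ?_ ?_)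
  · constructor
    · intro q hq
      obtain ⟨p, hp, rfl⟩ := List.mem_map.1 hq
      exact (S p.1).smul_mem (hl.mem p hp) _
    · intro q hq
      obtain ⟨p, hp, rfl⟩ := List.mem_map.1 hq
      simp only
      rw [map_smul, hl.cen p hp, smul_zero]
    · rw [List.isChain_map]
      exact hl.alt
  · intro q hq
    obtain ⟨p, hp, rfl⟩ := List.mem_map.1 hq
    simp only
    rw [norm_smul, Complex.norm_real, Real.norm_of_nonneg (by positivity)]
    by_cases h0 : ‖p.2‖ = 0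
    · rw [h0]; simp
    · rw [inv_mul_cancel₀ h0]

theorem Rep.cls_SW (hr : Rep φ π ξ) (hF : Free φ S)
    (hgen : (StarAlgebra.adjoin ℂ (⋃ i, (S i : Set A))).topologicalClosure = ⊤)
    (h : Perm φ S σ α) (hG : Gauge G) (hone : Cls G α (1 : A))
    (hper : ∀ i, (∃ m : ℕ, 0 < m ∧ (σ ^ m) i = i) → ∀ a ∈ S i, Cls G α a) :
    ∀ x ∈ SW φ S, Cls G α x := by
  refine Cls.span hG ?_
  rintro _ ⟨l, hl, rfl⟩
  exact hr.cls_words hF hgen h hG hone hper l hl

end free

end Pool.Agent.TH254.FP
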