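import Pool.Agent.TH254.FP.Trans

/-! Creation and annihilation parts of centred letters, and alternating words. -/

set_option autoImplicit false

open Finset TensorProduct Filter Topology
open scoped InnerProductSpace ComplexConjugate

namespace Pool.Agent.TH254.FP

variable {H ι : Type} [NormedAddCommGroup H] [InnerProductSpace ℂ H] [CompleteSpace H]

omit [CompleteSpace H] in
theorem nsq_sum {E J : Type*} [NormedAddCommGroup E] [InnerProductSpace ℂ E] [Fintype J]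
    (v : J → E) : ((‖∑ i, v i‖ : ℝ) : ℂ) ^ 2 = ∑ i, ∑ j, ⟪v i, v j⟫_ℂ := by
  have h := inner_self_eq_norm_sq_to_K (𝕜 := ℂ) (∑ i, v i)
  refine Eq.trans h.symm ?_
  rw [sum_inner]
  exact Finset.sum_congr rfl fun i _ => inner_sum _ _ _

theorem inner_star_mul (A B : H →L[ℂ] H) (x y : H) : ⟪A x, B y⟫_ℂ = ⟪x, (star A * B) y⟫_ℂ := by
  rw [ContinuousLinearMap.star_eq_adjoint]
  exact (ContinuousLinearMap.adjoint_inner_right A x (B y)).symm

/-- The projections `Q i` and the sets `T i` of centred letters of a free product. -/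
structure FQ (Q : ι → (H →L[ℂ] H)) (ξ : H) (T : ι → Set (H →L[ℂ] H)) : Prop where
  sa : ∀ i, star (Q i) = Q i
  idem : ∀ i, Q i * Q i = Q i
  orth : ∀ i j, i ≠ j → Q i * Q j = 0
  vac : ∀ i, Q i ξ = 0
  unit : ‖ξ‖ = 1
  adj : ∀ i, ∀ t ∈ T i, star t ∈ T i
  cen : ∀ i, ∀ t ∈ T i, (1 - Q i) * t * (1 - Q i) = 0
  gram : ∀ i, ∀ s ∈ T i, ∀ t ∈ T i, ∃ κ : ℂ, (1 - Q i) * (star s * t) * (1 - Q i) = κ • (1 - Q i)

variable {Q : ι → (H →L[ℂ] H)} {ξ : H} {T : ι → Set (H →L[ℂ] H)}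

/-- creation part -/
def cr (Q : ι → (H →L[ℂ] H)) (i : ι) (t : H →L[ℂ] H) : H →L[ℂ] H := Q i * t * (1 - Q i)
/-- annihilation part -/
def an (Q : ι → (H →L[ℂ] H)) (i : ι) (t : H →L[ℂ] H) : H →L[ℂ] H := (1 - Q i) * t * Q i
/-- diagonal part -/
def di (Q : ι → (H →L[ℂ] H)) (i : ι) (t : H →L[ℂ] H) : H →L[ℂ] H := Q i * t * Q i

theorem FQ.cr_eq (h : FQ Q ξ T) {i : ι} {t : H →L[ℂ] H} (ht : t ∈ T i) :
    cr Q i t = t * (1 - Q i) := by
  have := h.cen i t ht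
  unfold cr
  have e : t * (1 - Q i) = Q i * t * (1 - Q i) + (1 - Q i) * t * (1 - Q i) := by noncomm_ring
  rw [e, this, add_zero]

theorem FQ.decomp (h : FQ Q ξ T) {i : ι} {t : H →L[ℂ] H} (ht : t ∈ T i) :
    t = cr Q i t + di Q i t + an Q i t := by
  have := h.cen i t ht
  unfold cr an di
  have e : t = Q i * t * (1 - Q i) + Q i * t * Q i + (1 - Q i) * t * Q i +
    (1 - Q i) * t * (1 - Q i) := by noncomm_ring
  rw [this, add_zero] at e
  exact e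

theorem FQ.star_cr (h : FQ Q ξ T) (i : ι) (t : H →L[ℂ] H) : star (cr Q i (star t)) = an Q i t := by
  unfold cr an
  rw [star_mul, star_mul, star_star, star_sub, star_one, h.sa, mul_assoc]

theorem FQ.cr_cr (h : FQ Q ξ T) {i j : ι} (hij : i ≠ j) (s t : H →L[ℂ] H) :
    star (cr Q i s) * cr Q j t = 0 := by
  unfold cr
  rw [star_mul, star_mul, star_sub, star_one, h.sa]
  have : (1 - Q i) * (star s * Q i) * (Q j * t * (1 - Q j)) =
    (1 - Q i) * star s * (Q i * Q j) * t * (1 - Q j) := by noncomm_ring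
  rw [this, h.orth i j hij]
  simp

theorem FQ.cr_cr_same (h : FQ Q ξ T) {i : ι} {s t : H →L[ℂ] H} (hs : s ∈ T i) (ht : t ∈ T i) :
    ∃ κ : ℂ, star (cr Q i s) * cr Q i t = κ • (1 - Q i) := by
  obtain ⟨κ, hκ⟩ := h.gram i s hs t ht
  refine ⟨κ, ?_⟩
  rw [h.cr_eq hs, h.cr_eq ht, star_mul, star_sub, star_one, h.sa, ← hκ]
  noncomm_ring

/-- A letter: a sequence of operators, with a sequence of indices. -/
abbrev Lt (H ι : Type) [NormedAddCommGroup H] [InnerProductSpace ℂ H] : Type :=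
  (ℤ → ι) × (ℤ → (H →L[ℂ] H))

/-- product of creation parts -/
def CC (Q : ι → (H →L[ℂ] H)) (W : List (Lt H ι)) (n : ℤ) : H →L[ℂ] H :=
  (W.map fun p => cr Q (p.1 n) (p.2 n)).prod

/-- the product of the letters -/
def FF (W : List (Lt H ι)) (n : ℤ) : H →L[ℂ] H := (W.map fun p => p.2 n).prod

/-- the projection at the end of a word -/
def PPj (Q : ι → (H →L[ℂ] H)) : List (Lt H ι) → ℤ → (H →L[ℂ] H)
  | [], _ => 1
  | [p], n => 1 - Q (p.1 n)
  | _ :: q :: W, n => PPj Q (q :: W) n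

/-- an alternating word of letters from `T` -/
structure Good (T : ι → Set (H →L[ℂ] H)) (W : List (Lt H ι)) : Prop where
  mem : ∀ p ∈ W, ∀ n, p.2 n ∈ T (p.1 n)
  alt : W.IsChain (fun p q => ∀ n, p.1 n ≠ q.1 n)

omit [CompleteSpace H] in
theorem Good.tail {p : Lt H ι} {W : List (Lt H ι)} (h : Good T (p :: W)) : Good T W :=
  ⟨fun q hq => h.mem q (List.mem_cons_of_mem _ hq), h.alt.tail⟩

omit [CompleteSpace H] in
theorem CC_cons (p : Lt H ι) (W : List (Lt H ι)) (n : ℤ) :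
    CC Q (p :: W) n = cr Q (p.1 n) (p.2 n) * CC Q W n := by
  simp [CC]

omit [CompleteSpace H] in
theorem CC_append (V W : List (Lt H ι)) (n : ℤ) : CC Q (V ++ W) n = CC Q V n * CC Q W n := by
  simp [CC]

omit [CompleteSpace H] in
theorem FF_cons (p : Lt H ι) (W : List (Lt H ι)) (n : ℤ) : FF (p :: W) n = p.2 n * FF W n := by
  simp [FF]

theorem FQ.Q_CC (h : FQ Q ξ T) (i : ι) (p : Lt H ι) (W : List (Lt H ι)) (n : ℤ) (hi : i ≠ p.1 n) :
    Q i * CC Q (p :: W) n = 0 := by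
  rw [CC_cons, cr]
  have : Q i * (Q (p.1 n) * p.2 n * (1 - Q (p.1 n)) * CC Q W n) =
    (Q i * Q (p.1 n)) * p.2 n * (1 - Q (p.1 n)) * CC Q W n := by noncomm_ring
  rw [this, h.orth _ _ hi]
  simp

theorem FQ.gramCC (h : FQ Q ξ T) : ∀ (W : List (Lt H ι)), Good T W → ∀ m n : ℤ,
    ∃ κ : ℂ, star (CC Q W m) * CC Q W n = κ • PPj Q W n ∧ (κ ≠ 0 → PPj Q W m = PPj Q W n)
  | [], _, m, n => ⟨1, by simp [CC, PPj], fun _ => rfl⟩
  | [p], hW, m, n => by
    by_cases hmn : p.1 m = p.1 n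
    · obtain ⟨κ, hκ⟩ := h.cr_cr_same (hmn ▸ hW.mem p (by simp) m : p.2 m ∈ T (p.1 n))
        (hW.mem p (by simp) n)
      refine ⟨κ, ?_, fun _ => by simp only [PPj, hmn]⟩
      simp only [CC_cons, PPj, hmn]
      have : CC Q ([] : List (Lt H ι)) = fun _ => 1 := by funext n; simp [CC]
      rw [this]
      simpa using hκ
    · refine ⟨0, ?_, fun h0 => absurd rfl h0⟩
      rw [CC_cons, CC_cons, star_mul, mul_assoc, ← mul_assoc (star (cr Q (p.1 m) (p.2 m))),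
        h.cr_cr hmn, zero_smul]
      simp
  | p :: q :: W, hW, m, n => by
    by_cases hmn : p.1 m = p.1 n
    · obtain ⟨κ, hκ⟩ := h.cr_cr_same (hmn ▸ hW.mem p (by simp) m : p.2 m ∈ T (p.1 n))
        (hW.mem p (by simp) n)
      obtain ⟨κ', hκ', hP⟩ := h.gramCC (q :: W) hW.tail m n
      have hpq : p.1 n ≠ q.1 n := (List.isChain_cons_cons.1 hW.alt).1 n
      refine ⟨κ * κ', ?_, fun h0 => ?_⟩
      · rw [CC_cons p, CC_cons p, star_mul, mul_assoc, ← mul_assoc (star (cr Q (p.1 m) (p.2 m))),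
          hmn, hκ, smul_mul_assoc, sub_mul, one_mul, h.Q_CC _ q W n hpq, sub_zero, mul_smul_comm,
          hκ', smul_smul]
        rfl
      · exact hP (right_ne_zero_of_mul h0)
    · refine ⟨0, ?_, fun h0 => absurd rfl h0⟩
      rw [CC_cons p, CC_cons p, star_mul, mul_assoc, ← mul_assoc (star (cr Q (p.1 m) (p.2 m))),
        h.cr_cr hmn, zero_smul]
      simp

theorem FQ.PPj_vac (h : FQ Q ξ T) : ∀ (W : List (Lt H ι)) (n : ℤ), PPj Q W n ξ = ξ
  | [], n => by simp [PPj]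
  | [p], n => by simp [PPj, h.vac]
  | _ :: q :: W, n => h.PPj_vac (q :: W) n

theorem FQ.PPj_proj (h : FQ Q ξ T) : ∀ (W : List (Lt H ι)) (n : ℤ),
    star (PPj Q W n) = PPj Q W n ∧ PPj Q W n * PPj Q W n = PPj Q W n
  | [], n => by simp [PPj]
  | [p], n => by
    refine ⟨by simp [PPj, h.sa], ?_⟩
    simp only [PPj]
    have : (1 - Q (p.1 n)) * (1 - Q (p.1 n)) = 1 - Q (p.1 n) - Q (p.1 n) + Q (p.1 n) * Q (p.1 n) := by
      noncomm_ring
    rw [this, h.idem]; abel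
  | _ :: q :: W, n => h.PPj_proj (q :: W) n

/-- **The products of creation parts are dominated by the vectors `C ξ`.** -/
theorem FQ.dom (h : FQ Q ξ T) {W : List (Lt H ι)} (hW : Good T W) :
    Dom (CC Q W) (fun n => CC Q W n ξ) := by
  intro J _ n x
  set g : ℤ → ℤ → ℂ := fun a b => ⟪CC Q W a ξ, CC Q W b ξ⟫_ℂ with hg
  have hg0 : ∀ a b, star (CC Q W a) * CC Q W b = g a b • PPj Q W b ∧
      (g a b ≠ 0 → PPj Q W a = PPj Q W b) := by
    intro a b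
    obtain ⟨κ, hκ, hP⟩ := h.gramCC W hW a b
    have : g a b = κ := by
      rw [hg]
      simp only
      rw [inner_star_mul, hκ, ContinuousLinearMap.smul_apply, h.PPj_vac,
        inner_smul_right, inner_self_eq_norm_sq_to_K, h.unit]
      simp
    rw [this]
    exact ⟨hκ, hP⟩
  -- squares of the norms
  have e1 : ((‖∑ i, CC Q W (n i) (x i)‖ : ℝ) : ℂ) ^ 2 =
      ∑ i, ∑ j, g (n i) (n j) * ⟪x i, PPj Q W (n j) (x j)⟫_ℂ := by
    rw [nsq_sum]
    refine Finset.sum_congr rfl fun i _ => Finset.sum_congr rfl fun j _ => ?_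
    rw [inner_star_mul, (hg0 _ _).1, ContinuousLinearMap.smul_apply, inner_smul_right]
  have e2 : ∀ y : J → H, ((‖∑ i, CC Q W (n i) ξ ⊗ₜ[ℂ] y i‖ : ℝ) : ℂ) ^ 2 =
      ∑ i, ∑ j, g (n i) (n j) * ⟪y i, y j⟫_ℂ := by
    intro y
    rw [nsq_sum]
    refine Finset.sum_congr rfl fun i _ => Finset.sum_congr rfl fun j _ => ?_
    rw [TensorProduct.inner_tmul]
  have e3 : ((‖∑ i, CC Q W (n i) ξ ⊗ₜ[ℂ] x i‖ : ℝ) : ℂ) ^ 2 =
      ((‖∑ i, CC Q W (n i) (x i)‖ : ℝ) : ℂ) ^ 2 +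
      ((‖∑ i, CC Q W (n i) ξ ⊗ₜ[ℂ] (x i - PPj Q W (n i) (x i))‖ : ℝ) : ℂ) ^ 2 := by
    rw [e1, e2, e2, ← Finset.sum_add_distrib]
    refine Finset.sum_congr rfl fun i _ => ?_
    rw [← Finset.sum_add_distrib]
    refine Finset.sum_congr rfl fun j _ => ?_
    by_cases h0 : g (n i) (n j) = 0
    · rw [h0]; simp
    · have hP := (hg0 _ _).2 h0
      rw [← mul_add]
      congr 1
      rw [hP, inner_sub_left, inner_sub_right, inner_sub_right]
      have h5 : ⟪PPj Q W (n j) (x i), x j⟫_ℂ = ⟪x i, PPj Q W (n j) (x j)⟫_ℂ := by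
        have := inner_star_mul (PPj Q W (n j)) 1 (x i) (x j)
        rw [(h.PPj_proj W (n j)).1, mul_one] at this
        exact this
      have h6 : ⟪PPj Q W (n j) (x i), PPj Q W (n j) (x j)⟫_ℂ = ⟪x i, PPj Q W (n j) (x j)⟫_ℂ := by
        rw [inner_star_mul, (h.PPj_proj W (n j)).1, (h.PPj_proj W (n j)).2]
      rw [h5, h6]
      ring
  have e4 : ‖∑ i, CC Q W (n i) ξ ⊗ₜ[ℂ] x i‖ ^ 2 = ‖∑ i, CC Q W (n i) (x i)‖ ^ 2 +
      ‖∑ i, CC Q W (n i) ξ ⊗ₜ[ℂ] (x i - PPj Q W (n i) (x i))‖ ^ 2 := by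
    exact_mod_cast e3
  have h7 : ‖∑ i, CC Q W (n i) (x i)‖ ^ 2 ≤ ‖∑ i, CC Q W (n i) ξ ⊗ₜ[ℂ] x i‖ ^ 2 := by
    rw [e4]
    exact le_add_of_nonneg_right (sq_nonneg _)
  exact (pow_le_pow_iff_left₀ (norm_nonneg _) (norm_nonneg _) two_ne_zero).1 h7

end Pool.Agent.TH254.FP
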