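import Pool.Agent.TH254.FP.Alg

/-! Automorphisms which permute the factors of a free product. -/

set_option autoImplicit false

open Finset Filter Topology
open scoped InnerProductSpace ComplexConjugate

namespace Pool.Agent.TH254.FP

variable {A ι : Type} [CStarAlgebra A] {φ : A →ₗ[ℂ] ℂ} {S : ι → StarSubalgebra ℂ A}
variable {H : Type} [NormedAddCommGroup H] [InnerProductSpace ℂ H] [CompleteSpace H]
  {π : A →⋆ₐ[ℂ] (H →L[ℂ] H)} {ξ : H}

/-- the automorphism `α` preserves `φ` and permutes the subalgebras `S i` according to `σ` -/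
structure Perm (φ : A →ₗ[ℂ] ℂ) (S : ι → StarSubalgebra ℂ A) (σ : Equiv.Perm ι)
    (α : A ≃⋆ₐ[ℂ] A) : Prop where
  inv : ∀ a, φ (α a) = φ a
  mem : ∀ i a, α a ∈ S (σ i) ↔ a ∈ S i

variable {σ : Equiv.Perm ι} {α : A ≃⋆ₐ[ℂ] A}

theorem zpow_apply_add (α : A ≃⋆ₐ[ℂ] A) (m n : ℤ) (a : A) : (α ^ (m + n)) a = (α ^ m) ((α ^ n) a) := by
  rw [zpow_add]; rfl

theorem Perm.inv_zpow (h : Perm φ S σ α) (n : ℤ) (a : A) : φ ((α ^ n) a) = φ a := by
  induction n using Int.induction_on generalizing a with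
  | zero => rfl
  | succ n ih =>
    rw [zpow_apply_add, ih, zpow_one, h.inv]
  | pred n ih =>
    rw [sub_eq_add_neg, zpow_apply_add, ih]
    have := h.inv ((α ^ (-1 : ℤ)) a)
    rw [← this]
    congr 1
    have h2 := zpow_apply_add α 1 (-1) a
    rw [zpow_one] at h2
    rw [← h2]
    simp

theorem Perm.mem_zpow (h : Perm φ S σ α) (n : ℤ) (i : ι) (a : A) (ha : a ∈ S i) :
    (α ^ n) a ∈ S ((σ ^ n) i) := by
  induction n using Int.induction_on generalizing a i with
  | zero => simpa using ha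
  | succ n ih =>
    rw [zpow_apply_add, zpow_add, zpow_one, zpow_one]
    exact ih (σ i) (α a) ((h.mem i a).2 ha)
  | pred n ih =>
    rw [sub_eq_add_neg, zpow_apply_add, zpow_add]
    refine ih ((σ ^ (-1 : ℤ)) i) ((α ^ (-1 : ℤ)) a) ?_
    rw [← h.mem]
    have h2 := zpow_apply_add α 1 (-1) a
    rw [zpow_one] at h2
    rw [← h2]
    simpa using ha

/-- the orbit of a letter -/
noncomputable def ltr (σ : Equiv.Perm ι) (α : A ≃⋆ₐ[ℂ] A) (π : A →⋆ₐ[ℂ] (H →L[ℂ] H)) (p : ι × A) : Lt H ι :=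
  (fun n => (σ ^ n) p.1, fun n => π ((α ^ n) p.2))

theorem FF_ltr (l : List (ι × A)) (n : ℤ) : FF (l.map (ltr σ α π)) n = π ((α ^ n) (vl l)) := by
  induction l with
  | nil => simp [FF, vl]
  | cons p l ih =>
    rw [List.map_cons, FF_cons, ih, vl_cons, map_mul, map_mul]
    rfl

/-- the set of letters -/
noncomputable def PL (φ : A →ₗ[ℂ] ℂ) (S : ι → StarSubalgebra ℂ A) (σ : Equiv.Perm ι) (α : A ≃⋆ₐ[ℂ] A)
    (π : A →⋆ₐ[ℂ] (H →L[ℂ] H)) : Set (Lt H ι) :=
  {q | ∃ p : ι × A, p.2 ∈ S p.1 ∧ φ p.2 = 0 ∧ ‖p.2‖ ≤ 1 ∧ q = ltr σ α π p}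

theorem norm_zpow (α : A ≃⋆ₐ[ℂ] A) (n : ℤ) (a : A) : ‖(α ^ n) a‖ = ‖a‖ :=
  NonUnitalStarAlgHom.norm_map (α ^ n) (α ^ n).injective a

theorem letters (h : Perm φ S σ α) (hr : Rep φ π ξ) : Letters (TT φ S π) ξ (PL φ S σ α π) where
  mem := by
    rintro _ ⟨p, h1, h2, h3, rfl⟩ n
    exact ⟨(α ^ n) p.2, h.mem_zpow n _ _ h1, by rw [h.inv_zpow, h2], rfl⟩
  norm := by
    rintro _ ⟨p, h1, h2, h3, rfl⟩ n
    refine (NonUnitalStarAlgHom.norm_apply_le π _).trans ?_
    rw [norm_zpow]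
    exact h3
  sl := by
    rintro _ ⟨p, h1, h2, h3, rfl⟩
    refine ⟨(p.1, star p.2), star_mem h1, by rw [hr.star_eq, h2, map_zero], by rwa [norm_star], ?_⟩
    unfold sl ltr
    congr 1
    funext n
    simp only
    rw [map_star, map_star]
  stat := by
    intro W hW
    have hl : ∃ l : List (ι × A), W = l.map (ltr σ α π) := by
      induction W with
      | nil => exact ⟨[], rfl⟩
      | cons q W ih =>
        obtain ⟨l, hl⟩ := ih fun q hq => hW q (List.mem_cons_of_mem _ hq)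
        obtain ⟨p, -, -, -, hp⟩ := hW q (by simp)
        exact ⟨p :: l, by rw [List.map_cons, ← hl, hp]⟩
    obtain ⟨l, rfl⟩ := hl
    intro a b c d habcd
    simp only [FF_ltr]
    rw [hr.inner, hr.inner]
    have key : ∀ a b : ℤ, φ (star ((α ^ a) (vl l)) * (α ^ b) (vl l)) =
        φ (star (vl l) * (α ^ (b - a)) (vl l)) := by
      intro a b
      have e : star ((α ^ a) (vl l)) * (α ^ b) (vl l) =
          (α ^ a) (star (vl l) * (α ^ (b - a)) (vl l)) := by
        rw [map_mul, map_star, ← zpow_apply_add]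
        congr 3
        ring
      rw [e, h.inv_zpow]
    rw [key, key]
    congr 4
    omega

/-- **The norm inequality for alternating words of a free product.** -/
theorem Rep.word_bound (hr : Rep φ π ξ) (hF : Free φ S)
    (hgen : (StarAlgebra.adjoin ℂ (⋃ i, (S i : Set A))).topologicalClosure = ⊤)
    (h : Perm φ S σ α) (l : List (ι × A)) (hl : Alt φ S l) (hn : ∀ p ∈ l, ‖p.2‖ ≤ 1)
    (N : ℕ) (c : ℕ → ℂ) (hc : ∀ n, ‖c n‖ ≤ 1) (B0 B1 : ℝ)
    (hB0 : ∀ z : ℂ, ‖z‖ = 1 → ‖∑ n ∈ range N, z ^ n * c n‖ ≤ B0) (hB : 1 ≤ B1)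
    (hB1 : ∀ p ∈ l, (∃ m : ℕ, 0 < m ∧ (σ ^ m) p.1 = p.1) → ∀ z : ℂ, ‖z‖ = 1 →
      ‖∑ n ∈ range N, (z ^ n * c n) • (α ^ n) p.2‖ ≤ B1) :
    ‖∑ n ∈ range N, c n • (α ^ n) (vl l)‖ ≤ (l.length + 1) * B0 + l.length * B1 := by
  have hfq := hr.fq hF hgen
  have hW : ∀ q ∈ l.map (ltr σ α π), q ∈ PL φ S σ α π := by
    intro q hq
    obtain ⟨p, hp, rfl⟩ := List.mem_map.1 hq
    exact ⟨p, hl.mem p hp, hl.cen p hp, hn p hp, rfl⟩
  have hG : Good (TT φ S π) (l.map (ltr σ α π)) := by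
    constructor
    · intro q hq n
      exact (letters h hr).mem q (hW q hq) n
    · rw [List.isChain_map]
      refine hl.alt.imp fun p q hpq n => ?_
      exact fun h' => hpq ((σ ^ n).injective h')
  have key := hfq.words (letters h hr) N c B0 B1 hB0 (l.map (ltr σ α π)) hW hG (by
    intro q hq z hz
    obtain ⟨p, hp, rfl⟩ := List.mem_map.1 hq
    have e : ∑ n ∈ range N, z ^ n • (c n • di (QQ φ S π ξ) ((ltr σ α π p).1 n) ((ltr σ α π p).2 n)) =
        ∑ n ∈ range N, (z ^ n * c n) •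
          di (QQ φ S π ξ) ((ltr σ α π p).1 n) ((ltr σ α π p).2 n) :=
      Finset.sum_congr rfl fun n _ => smul_smul _ _ _
    rw [e]
    have hcz : ∀ n, ‖z ^ n * c n‖ ≤ 1 := by
      intro n
      rw [norm_mul, norm_pow, hz, one_pow, one_mul]
      exact hc n
    by_cases hper : ∃ m : ℕ, 0 < m ∧ (σ ^ m) p.1 = p.1
    · refine (hfq.di_le (ltr σ α π p) (hG.mem _ (List.mem_map_of_mem hp)) N _).trans ?_
      have e2 : ∑ n ∈ range N, (z ^ n * c n) • (ltr σ α π p).2 n =
          π (∑ n ∈ range N, (z ^ n * c n) • (α ^ n) p.2) := by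
        rw [map_sum]
        refine Finset.sum_congr rfl fun n _ => ?_
        rw [map_smul]
        simp [ltr]
      rw [e2]
      exact (NonUnitalStarAlgHom.norm_apply_le π _).trans (hB1 p hp hper z hz)
    · refine (hfq.di_inj (ltr σ α π p) ?_ N _ hcz fun n => ?_).trans hB
      · intro a b hab
        simp only [ltr, zpow_natCast] at hab
        by_contra hne
        rcases lt_or_gt_of_ne hne with hlt | hlt
        · apply hper
          refine ⟨b - a, by omega, ?_⟩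
          apply (σ ^ a).injective
          rw [← Equiv.Perm.mul_apply, ← pow_add]
          have : a + (b - a) = b := by omega
          rw [this, ← hab]
        · apply hper
          refine ⟨a - b, by omega, ?_⟩
          apply (σ ^ b).injective
          rw [← Equiv.Perm.mul_apply, ← pow_add]
          have : b + (a - b) = a := by omega
          rw [this, hab]
      · exact (letters h hr).norm _ (hW _ (List.mem_map_of_mem hp)) n)
  rw [List.length_map] at key
  refine (le_of_eq ?_).trans key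
  have e3 : ∑ n ∈ range N, c n • FF (l.map (ltr σ α π)) n =
      π (∑ n ∈ range N, c n • (α ^ n) (vl l)) := by
    rw [map_sum]
    refine Finset.sum_congr rfl fun n _ => ?_
    rw [map_smul, FF_ltr, zpow_natCast]
  rw [e3]
  exact (NonUnitalStarAlgHom.norm_map π hr.inj _).symm

end Pool.Agent.TH254.FP
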