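import Pool.Agent.TH254.FP.Cls
import Pool.Agent.H373R2.T7.SupMu

/-! Davenport's bound, eigenvectors, and extensions. -/

set_option autoImplicit false

open Finset Filter Topology
open scoped InnerProductSpace ComplexConjugate

namespace Pool.Agent.TH254.FP

/-- bounds with a logarithmic saving -/
def Gr (U : ℕ) (B : ℕ → ℝ) : Prop := ∃ C : ℝ, ∀ N : ℕ, 2 ≤ N → B N ≤ C * (N / Real.log N ^ U)

theorem log_pow_le_self (U : ℕ) {x : ℝ} (hx : 1 ≤ x) : Real.log x ^ U ≤ (U.factorial : ℝ) * x := by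
  have h := Real.pow_div_factorial_le_exp (Real.log x) (Real.log_nonneg hx) U
  rw [Real.exp_log (by linarith), div_le_iff₀ (by positivity)] at h
  linarith

theorem gauge_Gr (U : ℕ) : Gauge (Gr U) where
  add B B' h h' := by
    obtain ⟨C, hC⟩ := h
    obtain ⟨C', hC'⟩ := h'
    refine ⟨C + C', fun N hN => ?_⟩
    have := hC N hN; have := hC' N hN
    simp only
    linarith
  smul c B hc h := by
    obtain ⟨C, hC⟩ := h
    refine ⟨c * C, fun N hN => ?_⟩
    have := mul_le_mul_of_nonneg_left (hC N hN) hc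
    simp only
    linarith
  one := by
    refine ⟨U.factorial, fun N hN => ?_⟩
    have hN2 : (2 : ℝ) ≤ N := by exact_mod_cast hN
    have h := log_pow_le_self U (x := N) (by linarith)
    have hl : 0 < Real.log N := Real.log_pos (by linarith)
    rw [mul_div_assoc', le_div_iff₀ (by positivity), one_mul]
    exact h
  mono B B' hB h := by
    obtain ⟨C, hC⟩ := h
    exact ⟨C, fun N hN => (hB N).trans (hC N hN)⟩

/-- Davenport's bound -/
theorem davenport (U : ℕ) : ∃ N0 : ℕ, ∀ N ≥ N0, ∀ z : ℂ, ‖z‖ = 1 →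
    ‖∑ n ∈ Icc 1 N, mob n * z ^ n‖ ≤ N / Real.log N ^ U := by
  obtain ⟨N0, h0⟩ := Pool.Agent.H373R2.T7.sup_mu U
  refine ⟨N0, fun N hN z hz => ?_⟩
  obtain ⟨θ, hθ⟩ := (Complex.norm_eq_one_iff z).1 hz
  have h1 := h0 N hN (θ / (2 * Real.pi))
  refine (le_of_eq ?_).trans h1
  congr 1
  refine Finset.sum_congr rfl fun n _ => ?_
  have e1 : mob n = ((Pool.Agent.H373R2.T7.muR n : ℝ) : ℂ) := by
    unfold mob Pool.Agent.H373R2.T7.muR
    push_cast; rfl
  rw [e1]
  congr 1
  rw [← hθ, ← Complex.exp_nat_mul, Pool.Agent.H807R2.Dav.ee]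
  congr 1
  have hpi : (Real.pi : ℂ) ≠ 0 := by exact_mod_cast Real.pi_ne_zero
  push_cast
  field_simp

/-- scalar form -/
def Dv (G : (ℕ → ℝ) → Prop) : Prop :=
  ∃ B : ℕ → ℝ, G B ∧ ∀ N : ℕ, ∀ z : ℂ, ‖z‖ = 1 → ‖∑ n ∈ Icc 1 N, mob n * z ^ n‖ ≤ B N

theorem norm_sum_mob (N : ℕ) {z : ℂ} (hz : ‖z‖ = 1) : ‖∑ n ∈ Icc 1 N, mob n * z ^ n‖ ≤ N := by
  refine (norm_sum_le _ _).trans ?_
  calc ∑ n ∈ Icc 1 N, ‖mob n * z ^ n‖ ≤ ∑ n ∈ Icc 1 N, (1 : ℝ) := by
        refine sum_le_sum fun n _ => ?_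
        rw [norm_mul, norm_pow, hz, one_pow, mul_one]
        exact norm_mob n
    _ = N := by simp

theorem dv_Gr (U : ℕ) : Dv (Gr U) := by
  obtain ⟨N0, h0⟩ := davenport U
  set C : ℝ := max 1 (Real.log (N0 + 1) ^ U) with hC
  refine ⟨fun N => if 2 ≤ N then C * (N / Real.log N ^ U) else N, ⟨C, fun N hN => ?_⟩,
    fun N z hz => ?_⟩
  · simp only
    rw [if_pos hN]
  · simp only
    split_ifs with hN
    · have hN2 : (2 : ℝ) ≤ N := by exact_mod_cast hN
      have hl : 0 < Real.log N := Real.log_pos (by linarith)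
      by_cases hN0 : N0 ≤ N
      · refine (h0 N hN0 z hz).trans ?_
        have : (0 : ℝ) ≤ N / Real.log N ^ U := by positivity
        calc (N : ℝ) / Real.log N ^ U = 1 * (N / Real.log N ^ U) := (one_mul _).symm
          _ ≤ C * (N / Real.log N ^ U) := by
            gcongr
            exact le_max_left _ _
      · refine (norm_sum_mob N hz).trans ?_
        rw [mul_div_assoc', le_div_iff₀ (by positivity), mul_comm]
        gcongr
        refine le_trans ?_ (le_max_right _ _)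
        gcongr
        have : N ≤ N0 := by omega
        have : (N : ℝ) ≤ N0 := by exact_mod_cast this
        linarith
    · exact norm_sum_mob N hz

theorem dv_Go : Dv Go := by
  refine ⟨fun N => ⨆ z : {z : ℂ // ‖z‖ = 1}, ‖∑ n ∈ Icc 1 N, mob n * (z : ℂ) ^ n‖, ?_, ?_⟩
  · intro ε hε
    obtain ⟨N0, h0⟩ := davenport 1
    obtain ⟨N1, h1⟩ := exists_nat_gt (Real.exp (1 / ε))
    refine ⟨max N0 (N1 + 1), fun N hN => ?_⟩
    have : Nonempty {z : ℂ // ‖z‖ = 1} := ⟨⟨1, norm_one⟩⟩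
    refine ciSup_le fun z => (h0 N ((le_max_left _ _).trans hN) z z.2).trans ?_
    have hN1 : (N1 : ℝ) ≤ N := by
      have := (le_max_right N0 (N1 + 1)).trans hN
      have : N1 ≤ N := by omega
      exact_mod_cast this
    have hlog : 1 / ε ≤ Real.log N := by
      rw [Real.le_log_iff_exp_le (lt_of_lt_of_le ((Real.exp_pos _).trans h1) hN1)]
      exact h1.le.trans hN1
    have hlp : 0 < Real.log N := lt_of_lt_of_le (by positivity) hlog
    rw [pow_one, div_le_iff₀ hlp]
    have h3 : 1 ≤ ε * Real.log N := by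
      rw [div_le_iff₀ hε] at hlog
      linarith
    have hN0' : (0 : ℝ) ≤ N := Nat.cast_nonneg _
    nlinarith
  · intro N z hz
    refine le_ciSup (f := fun z : {z : ℂ // ‖z‖ = 1} => ‖∑ n ∈ Icc 1 N, mob n * (z : ℂ) ^ n‖)
      ⟨N, ?_⟩ ⟨z, hz⟩
    rintro _ ⟨w, rfl⟩
    exact norm_sum_mob N w.2

variable {A : Type} [CStarAlgebra A] {G : (ℕ → ℝ) → Prop}

/-- eigenvectors -/
theorem cls_eigen (hG : Gauge G) (hD : Dv G) {F : Type} [FunLike F A A] [AlgHomClass F ℂ A A]
    {f : F} {x : A} {c : ℂ} (hc : ‖c‖ = 1) (hx : f x = c • x) : Cls G f x := by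
  obtain ⟨B, hB, hB'⟩ := hD
  refine ⟨_, hG.smul ‖x‖ B (norm_nonneg _) hB, fun N z hz => ?_⟩
  have hi : ∀ n : ℕ, (⇑f)^[n] x = c ^ n • x := by
    intro n
    induction n with
    | zero => simp
    | succ n ih => rw [Function.iterate_succ_apply', ih, map_smul, hx, smul_smul, pow_succ]
  have e : ms f x N z = (∑ n ∈ Icc 1 N, mob n * (z * c) ^ n) • x := by
    unfold ms
    rw [sum_smul]
    refine sum_congr rfl fun n _ => ?_
    rw [hi, smul_smul, mul_pow, mul_assoc]
  rw [e, norm_smul, mul_comm]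
  exact mul_le_mul_of_nonneg_left (hB' N (z * c) (by rw [norm_mul, hz, hc, one_mul]))
    (norm_nonneg _)

theorem cls_one (hG : Gauge G) (hD : Dv G) {F : Type} [FunLike F A A] [AlgHomClass F ℂ A A]
    {f : F} : Cls G f (1 : A) :=
  cls_eigen hG hD (c := 1) norm_one (by rw [one_smul, map_one])

/-- eigenvectors of a power -/
theorem cls_eigen_pow (hG : Gauge G) (hD : Dv G) {F : Type} [FunLike F A A] [AlgHomClass F ℂ A A]
    {f : F} (hf : ∀ x, ‖f x‖ = ‖x‖) {x : A} {c : ℂ} {q : ℕ} (hq : 0 < q)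
    (hx : (⇑f)^[q] x = c • x) : Cls G f x := by
  by_cases hx0 : x = 0
  · rw [hx0]; exact Cls.zero hG
  have hiso : ∀ n : ℕ, ‖(⇑f)^[n] x‖ = ‖x‖ := by
    intro n
    induction n with
    | zero => rfl
    | succ n ih => rw [Function.iterate_succ_apply', hf, ih]
  have hc : ‖c‖ = 1 := by
    have h1 := hiso q
    rw [hx, norm_smul] at h1
    exact mul_right_cancel₀ (norm_ne_zero_iff.2 hx0) (h1.trans (one_mul _).symm)
  obtain ⟨κ, hκ⟩ := IsAlgClosed.exists_pow_nat_eq c hq
  have hκ1 : ‖κ‖ = 1 := by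
    have : ‖κ‖ ^ q = 1 := by rw [← norm_pow, hκ, hc]
    exact (pow_eq_one_iff_of_nonneg (norm_nonneg _) hq.ne').1 this
  obtain ⟨ω, hωq, hω1, hω2⟩ := exists_roots' q hq
  -- the components
  set y : Fin q → A := fun t => ∑ j ∈ range q, (conj (κ ^ j) * conj (ω t ^ j)) • (⇑f)^[j] x with hy
  have hcc : ∀ z : ℂ, ‖z‖ = 1 → z * conj z = 1 := by
    intro z hz
    rw [Complex.mul_conj, Complex.normSq_eq_norm_sq, hz]; simp
  have hyt : ∀ t, f (y t) = (κ * ω t) • y t := by
    intro t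
    set u : ℂ := κ * ω t with hu
    have hu1 : ‖u‖ = 1 := by rw [hu, norm_mul, hκ1, hω1, one_mul]
    have huq : u ^ q = c := by rw [hu, mul_pow, hκ, hωq, mul_one]
    have hy' : y t = ∑ j ∈ range q, conj (u ^ j) • (⇑f)^[j] x := by
      rw [hy]
      refine Finset.sum_congr rfl fun j _ => ?_
      rw [hu, mul_pow, map_mul]
    have h1 : f (y t) = ∑ j ∈ range q, u • (conj (u ^ (j + 1)) • (⇑f)^[j + 1] x) := by
      rw [hy', map_sum]
      refine Finset.sum_congr rfl fun j _ => ?_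
      rw [map_smul, Function.iterate_succ_apply', smul_smul, pow_succ, map_mul]
      congr 1
      have := hcc u hu1
      linear_combination (-(conj (u ^ j))) * this
    rw [h1, ← smul_sum]
    congr 1
    have h2 := Finset.sum_range_succ (fun j => conj (u ^ j) • (⇑f)^[j] x) q
    have h3 := Finset.sum_range_succ' (fun j => conj (u ^ j) • (⇑f)^[j] x) q
    rw [h2] at h3
    have h4 : conj (u ^ q) • (⇑f)^[q] x = conj (u ^ 0) • (⇑f)^[0] x := by
      rw [hx, smul_smul, huq, mul_comm, hcc c hc]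
      simp
    rw [h4] at h3
    rw [hy']
    exact (add_right_cancel h3).symm
  have hsum : (q : ℂ) • x = ∑ t, y t := by
    rw [hy, Finset.sum_comm]
    have h1 : ∀ j ∈ range q, ∑ t, (conj (κ ^ j) * conj (ω t ^ j)) • (⇑f)^[j] x =
        if j = 0 then (q : ℂ) • x else 0 := by
      intro j hj
      rw [← sum_smul, ← mul_sum]
      have h2 := hω2 0 j hq (mem_range.1 hj)
      simp only [pow_zero, one_mul] at h2
      rw [h2]
      by_cases hj0 : j = 0
      · subst hj0; simp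
      · rw [if_neg (Ne.symm hj0), if_neg hj0, mul_zero, zero_smul]
    rw [sum_congr rfl h1, sum_ite_eq' (range q) 0, if_pos (mem_range.2 hq)]
  have hx' : x = ((q : ℂ)⁻¹) • ∑ t, y t := by
    rw [← hsum, smul_smul, inv_mul_cancel₀ (by exact_mod_cast hq.ne'), one_smul]
  rw [hx']
  refine Cls.smul hG _ ?_
  have : ∀ s : Finset (Fin q), Cls G f (∑ t ∈ s, y t) := by
    intro s
    induction s using Finset.cons_induction with
    | empty => rw [sum_empty]; exact Cls.zero hG
    | cons t s ht ih =>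
      rw [sum_cons]
      refine Cls.add hG (cls_eigen hG hD ?_ (hyt t)) ih
      rw [norm_mul, hκ1, hω1, one_mul]
  exact this univ

end Pool.Agent.TH254.FP
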