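import Pool.Agent.TH254.FP.Dyn

/-! The GNS representation of a state, if it is faithful. -/

set_option autoImplicit false

open Filter Topology
open scoped InnerProductSpace ComplexConjugate ComplexOrder

namespace Pool.Agent.TH254.FP

theorem exists_rep {A : Type} [CStarAlgebra A] (φ : A →ₗ[ℂ] ℂ) (h1 : φ 1 = 1)
    (hpos : ∀ a : A, ∃ r : ℝ, 0 ≤ r ∧ φ (star a * a) = r)
    (hf : ∀ a : A, (∀ b : A, φ (star (a * b) * (a * b)) = 0) → a = 0) :
    ∃ (H : Type) (_ : NormedAddCommGroup H) (_ : InnerProductSpace ℂ H) (_ : CompleteSpace H)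
      (π : A →⋆ₐ[ℂ] (H →L[ℂ] H)) (ξ : H), Rep φ π ξ := by
  let _ : PartialOrder A := CStarAlgebra.spectralOrder A
  have : StarOrderedRing A := CStarAlgebra.spectralOrderedRing A
  let f : A →ₚ[ℂ] ℂ := PositiveLinearMap.mk₀ φ (by
    intro a ha
    obtain ⟨b, rfl⟩ := CStarAlgebra.nonneg_iff_eq_star_mul_self.1 ha
    obtain ⟨r, hr, e⟩ := hpos b
    rw [e]
    exact_mod_cast hr)
  have hfa : ∀ a, f a = φ a := fun a => rfl
  refine ⟨f.GNS, inferInstance, inferInstance, inferInstance, f.gnsStarAlgHom,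
    ((f.toPreGNS 1 : f.PreGNS) : f.GNS), ?_⟩
  have happ : ∀ a b : A, f.gnsStarAlgHom a ((f.toPreGNS b : f.PreGNS) : f.GNS) =
      ((f.toPreGNS (a * b) : f.PreGNS) : f.GNS) := by
    intro a b
    exact f.gnsNonUnitalStarAlgHom_apply_coe
  have hin : ∀ a b : A, ⟪((f.toPreGNS a : f.PreGNS) : f.GNS), ((f.toPreGNS b : f.PreGNS) : f.GNS)⟫_ℂ =
      φ (star a * b) := by
    intro a b
    rw [UniformSpace.Completion.inner_coe]
    rfl
  constructor
  · intro a
    rw [happ, hin, star_one, one_mul, mul_one]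
  · have h2 := hin 1 1
    rw [star_one, one_mul, h1] at h2
    have h4 := nsq ((f.toPreGNS 1 : f.PreGNS) : f.GNS)
    rw [h2] at h4
    have h3 : ‖((f.toPreGNS 1 : f.PreGNS) : f.GNS)‖ ^ 2 = 1 := by exact_mod_cast h4
    exact (pow_eq_one_iff_of_nonneg (norm_nonneg _) two_ne_zero).1 h3
  · have h2 : (Set.range fun a => f.gnsStarAlgHom a ((f.toPreGNS 1 : f.PreGNS) : f.GNS)) =
        Set.range ((↑) : f.PreGNS → f.GNS) := by
      ext v
      constructor
      · rintro ⟨a, rfl⟩
        exact ⟨f.toPreGNS (a * 1), (happ a 1).symm⟩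
      · rintro ⟨x, rfl⟩
        refine ⟨f.ofPreGNS x, ?_⟩
        simp only
        rw [happ, mul_one]
        rfl
    rw [h2]
    exact UniformSpace.Completion.denseRange_coe
  · intro a b hab
    have h0 : f.gnsStarAlgHom (a - b) = 0 := by rw [map_sub, hab, sub_self]
    have : a - b = 0 := by
      refine hf _ fun c => ?_
      rw [← hin, ← happ, h0]
      simp
    exact sub_eq_zero.1 this

end Pool.Agent.TH254.FP
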