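import Mathlib

/-! A transference inequality for sums `∑ C n * D n * (C' n)†`, where `C` and `C'` are dominated by
stationary sequences of vectors. -/

set_option autoImplicit false

open Finset TensorProduct
open scoped InnerProductSpace ComplexConjugate

namespace Pool.Agent.TH254.FP

/-- roots of unity, as a family of points of the circle with orthogonality -/
theorem exists_roots' (L : ℕ) (hL : 0 < L) : ∃ z : Fin L → ℂ, (∀ k, z k ^ L = 1) ∧ (∀ k, ‖z k‖ = 1) ∧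
    ∀ m m' : ℕ, m < L → m' < L → ∑ k, z k ^ m * conj (z k ^ m') = if m = m' then (L : ℂ) else 0 := by
  set ζ : ℂ := Complex.exp (2 * Real.pi * Complex.I / L) with hζ
  have hprim : IsPrimitiveRoot ζ L := Complex.isPrimitiveRoot_exp L hL.ne'
  have hn : ‖ζ‖ = 1 := hprim.norm'_eq_one hL.ne'
  have hn0 : ζ ≠ 0 := by
    intro h; rw [h, norm_zero] at hn; exact zero_ne_one hn
  have hc : ∀ z : ℂ, ‖z‖ = 1 → z * conj z = 1 := by
    intro z hz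
    rw [Complex.mul_conj, Complex.normSq_eq_norm_sq, hz]; simp
  refine ⟨fun k => ζ ^ (k : ℕ), fun k => by rw [← pow_mul, mul_comm, pow_mul, hprim.pow_eq_one,
    one_pow], fun k => by rw [norm_pow, hn, one_pow], fun m m' hm hm' => ?_⟩
  -- reduce to a geometric sum
  have key : ∀ a b : ℕ, a < L → b < L → b < a →
      ∑ k : Fin L, (ζ ^ (k : ℕ)) ^ a * conj ((ζ ^ (k : ℕ)) ^ b) = 0 := by
    intro a b ha hb hab
    obtain ⟨d, rfl⟩ : ∃ d, a = b + d := ⟨a - b, by omega⟩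
    have e : ∀ k : Fin L, (ζ ^ (k : ℕ)) ^ (b + d) * conj ((ζ ^ (k : ℕ)) ^ b) = (ζ ^ d) ^ (k : ℕ) := by
      intro k
      have h1 : (ζ ^ (k : ℕ)) ^ b * conj ((ζ ^ (k : ℕ)) ^ b) = 1 :=
        hc _ (by rw [norm_pow, norm_pow, hn, one_pow, one_pow])
      calc _ = ((ζ ^ (k : ℕ)) ^ b * conj ((ζ ^ (k : ℕ)) ^ b)) * (ζ ^ (k : ℕ)) ^ d := by
            rw [pow_add]; ring
        _ = _ := by rw [h1, one_mul, ← pow_mul, ← pow_mul, mul_comm]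
    rw [Finset.sum_congr rfl fun k _ => e k, Fin.sum_univ_eq_sum_range (fun k => (ζ ^ d) ^ k)]
    have hd : ζ ^ d ≠ 1 := by
      intro h
      have := hprim.dvd_of_pow_eq_one d h
      have := Nat.le_of_dvd (by omega) this
      omega
    have h2 := geom_sum_eq hd L
    rw [h2, ← pow_mul, mul_comm d L, pow_mul, hprim.pow_eq_one, one_pow, sub_self, zero_div]
  rcases lt_trichotomy m m' with h | h | h
  · rw [if_neg h.ne]
    have := key m' m hm' hm h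
    have h3 := congrArg conj this
    rw [map_sum, map_zero] at h3
    rw [← h3]
    refine Finset.sum_congr rfl fun k _ => ?_
    rw [map_mul, Complex.conj_conj, mul_comm]
  · subst h
    rw [if_pos rfl]
    have e : ∀ k : Fin L, (ζ ^ (k : ℕ)) ^ m * conj ((ζ ^ (k : ℕ)) ^ m) = 1 := fun k =>
      hc _ (by rw [norm_pow, norm_pow, hn, one_pow, one_pow])
    rw [Finset.sum_congr rfl fun k _ => e k]
    simp
  · rw [if_neg h.ne']
    exact key m m' hm hm' h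

theorem exists_roots (L : ℕ) (hL : 0 < L) : ∃ z : Fin L → ℂ, (∀ k, ‖z k‖ = 1) ∧
    ∀ m m' : ℕ, m < L → m' < L → ∑ k, z k ^ m * conj (z k ^ m') = if m = m' then (L : ℂ) else 0 := by
  obtain ⟨z, -, h⟩ := exists_roots' L hL
  exact ⟨z, h⟩

variable {H K : Type*} [NormedAddCommGroup H] [InnerProductSpace ℂ H]
  [NormedAddCommGroup K] [InnerProductSpace ℂ K]

/-- the family of points `z` is orthogonal up to order `L` -/
def Orth {L : ℕ} (z : Fin L → ℂ) : Prop := (∀ k, ‖z k‖ = 1) ∧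
    ∀ m m' : ℕ, m < L → m' < L → ∑ k, z k ^ m * conj (z k ^ m') = if m = m' then (L : ℂ) else 0

/-- Parseval -/
theorem parseval {L : ℕ} {z : Fin L → ℂ} (hz : Orth z) {M : ℕ} (hM : M ≤ L) (y : Fin M → K) :
    ∑ k, ‖∑ m : Fin M, (conj (z k ^ (m : ℕ))) • y m‖ ^ 2 = L * ∑ m, ‖y m‖ ^ 2 := by
  have h1 : ∀ k, ((‖∑ m : Fin M, (conj (z k ^ (m : ℕ))) • y m‖ ^ 2 : ℝ) : ℂ) =
      ∑ m : Fin M, ∑ m' : Fin M, (z k ^ (m : ℕ) * conj (z k ^ (m' : ℕ))) * ⟪y m, y m'⟫_ℂ := by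
    intro k
    have := inner_self_eq_norm_sq_to_K (𝕜 := ℂ) (∑ m : Fin M, (conj (z k ^ (m : ℕ))) • y m)
    rw [sum_inner] at this
    have e : ((‖∑ m : Fin M, (conj (z k ^ (m : ℕ))) • y m‖ ^ 2 : ℝ) : ℂ) =
      (‖∑ m : Fin M, (conj (z k ^ (m : ℕ))) • y m‖ : ℂ) ^ 2 := by push_cast; rfl
    rw [e]
    refine Eq.trans this.symm ?_
    refine Finset.sum_congr rfl fun m _ => ?_
    rw [inner_sum]
    refine Finset.sum_congr rfl fun m' _ => ?_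
    rw [inner_smul_left, inner_smul_right, Complex.conj_conj]
    ring
  have h2 : ((∑ k, ‖∑ m : Fin M, (conj (z k ^ (m : ℕ))) • y m‖ ^ 2 : ℝ) : ℂ) =
      ((L * ∑ m, ‖y m‖ ^ 2 : ℝ) : ℂ) := by
    push_cast
    have h1' : ∀ k, (‖∑ m : Fin M, (conj (z k ^ (m : ℕ))) • y m‖ : ℂ) ^ 2 =
      ∑ m : Fin M, ∑ m' : Fin M, (z k ^ (m : ℕ) * conj (z k ^ (m' : ℕ))) * ⟪y m, y m'⟫_ℂ := by
      intro k; rw [← h1 k]; push_cast; rfl
    rw [Finset.sum_congr rfl fun k _ => h1' k, Finset.sum_comm, Finset.mul_sum]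
    refine Finset.sum_congr rfl fun m _ => ?_
    rw [Finset.sum_comm]
    have h3 : ∀ m' : Fin M, ∑ k, (z k ^ (m : ℕ) * conj (z k ^ (m' : ℕ))) * ⟪y m, y m'⟫_ℂ =
        if m = m' then (L : ℂ) * ⟪y m, y m'⟫_ℂ else 0 := by
      intro m'
      rw [← Finset.sum_mul, hz.2 m m' (m.2.trans_le hM) (m'.2.trans_le hM)]
      by_cases h : m = m'
      · subst h; simp
      · rw [if_neg h, if_neg (fun h' => h (Fin.ext h')), zero_mul]
    rw [Finset.sum_congr rfl fun m' _ => h3 m', Finset.sum_ite_eq Finset.univ m, if_pos (mem_univ m),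
      inner_self_eq_norm_sq_to_K]
    rfl
  exact_mod_cast h2

/-- `w` is stationary -/
def Stat (w : ℤ → K) : Prop := ∀ a b c d : ℤ, a - b = c - d → ⟪w a, w b⟫_ℂ = ⟪w c, w d⟫_ℂ

theorem Stat.norm_eq {w : ℤ → K} (hw : Stat w) (n : ℤ) : ‖w n‖ = ‖w 0‖ := by
  have h := hw n n 0 0 (by ring)
  rw [inner_self_eq_norm_sq_to_K, inner_self_eq_norm_sq_to_K] at h
  have h2 : ‖w n‖ ^ 2 = ‖w 0‖ ^ 2 := by exact_mod_cast h
  exact (pow_left_inj₀ (norm_nonneg _) (norm_nonneg _) two_ne_zero).1 h2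

/-- the sequence of operators `C` is dominated by the sequence of vectors `w` -/
def Dom (C : ℤ → (H →L[ℂ] H)) (w : ℤ → K) : Prop :=
  ∀ (ι : Type) [Fintype ι] (n : ι → ℤ) (h : ι → H), ‖∑ i, C (n i) (h i)‖ ≤ ‖∑ i, w (n i) ⊗ₜ[ℂ] h i‖

/-- the doubled Fourier sum -/
noncomputable def uu {L : ℕ} (z : Fin L → ℂ) (w : ℤ → K) (M : ℕ) (k : Fin L) : K :=
  ∑ p : Fin M × Fin M, (conj (z k ^ (p.1 : ℕ)) * z k ^ (p.2 : ℕ)) • w ((p.1 : ℤ) - (p.2 : ℤ))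

/-- the mixed Fourier sum -/
noncomputable def vv {L : ℕ} (z : Fin L → ℂ) (w : ℤ → K) (M : ℕ) (k l : Fin L) : K :=
  ∑ p : Fin M × Fin M, (conj (z k ^ (p.1 : ℕ)) * conj (z l ^ (p.2 : ℕ))) • w ((p.1 : ℤ) + (p.2 : ℤ))

theorem inner_uu {L : ℕ} (z : Fin L → ℂ) {w : ℤ → K} (hw : Stat w) (M : ℕ) (k l : Fin L) :
    ⟪uu z w M k, uu z w M l⟫_ℂ = (‖vv z w M k l‖ : ℂ) ^ 2 := by
  have hr := inner_self_eq_norm_sq_to_K (𝕜 := ℂ) (vv z w M k l)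
  refine Eq.trans ?_ hr
  unfold uu vv
  rw [sum_inner, sum_inner]
  have e1 : ∀ x : Fin M × Fin M,
      ⟪(conj (z k ^ (x.1 : ℕ)) * z k ^ (x.2 : ℕ)) • w ((x.1 : ℤ) - (x.2 : ℤ)),
        ∑ p : Fin M × Fin M, (conj (z l ^ (p.1 : ℕ)) * z l ^ (p.2 : ℕ)) •
          w ((p.1 : ℤ) - (p.2 : ℤ))⟫_ℂ = ∑ y : Fin M × Fin M,
      (z k ^ (x.1 : ℕ) * conj (z k ^ (x.2 : ℕ)) * (conj (z l ^ (y.1 : ℕ)) * z l ^ (y.2 : ℕ))) *
        ⟪w ((x.1 : ℤ) + (y.2 : ℤ)), w ((x.2 : ℤ) + (y.1 : ℤ))⟫_ℂ := by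
    intro x
    rw [inner_sum]
    refine Finset.sum_congr rfl fun y _ => ?_
    rw [inner_smul_left, inner_smul_right, map_mul, Complex.conj_conj,
      hw ((x.1 : ℤ) - (x.2 : ℤ)) ((y.1 : ℤ) - (y.2 : ℤ)) ((x.1 : ℤ) + (y.2 : ℤ))
        ((x.2 : ℤ) + (y.1 : ℤ)) (by ring)]
    ring
  have e2 : ∀ x : Fin M × Fin M,
      ⟪(conj (z k ^ (x.1 : ℕ)) * conj (z l ^ (x.2 : ℕ))) • w ((x.1 : ℤ) + (x.2 : ℤ)),
        ∑ p : Fin M × Fin M, (conj (z k ^ (p.1 : ℕ)) * conj (z l ^ (p.2 : ℕ))) •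
          w ((p.1 : ℤ) + (p.2 : ℤ))⟫_ℂ = ∑ y : Fin M × Fin M,
      (z k ^ (x.1 : ℕ) * z l ^ (x.2 : ℕ) * (conj (z k ^ (y.1 : ℕ)) * conj (z l ^ (y.2 : ℕ)))) *
        ⟪w ((x.1 : ℤ) + (x.2 : ℤ)), w ((y.1 : ℤ) + (y.2 : ℤ))⟫_ℂ := by
    intro x
    rw [inner_sum]
    refine Finset.sum_congr rfl fun y _ => ?_
    rw [inner_smul_left, inner_smul_right, map_mul, Complex.conj_conj, Complex.conj_conj]
    ring
  rw [Finset.sum_congr rfl fun x _ => e1 x, Finset.sum_congr rfl fun x _ => e2 x,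
    ← Fintype.sum_prod_type', ← Fintype.sum_prod_type']
  refine Finset.sum_nbij' (fun q => ((q.1.1, q.2.2), (q.1.2, q.2.1)))
    (fun q => ((q.1.1, q.2.1), (q.2.2, q.1.2))) (by simp) (by simp) (by simp) (by simp) ?_
  intro q _
  ring

theorem sum_vv {L : ℕ} {z : Fin L → ℂ} (hz : Orth z) {w : ℤ → K} (hw : Stat w) {M : ℕ}
    (hM : M ≤ L) : ∑ k, ∑ l, ‖vv z w M k l‖ ^ 2 = ((L : ℝ) * M) ^ 2 * ‖w 0‖ ^ 2 := by
  have e : ∀ k l, vv z w M k l = ∑ m : Fin M, (conj (z k ^ (m : ℕ))) •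
      ∑ p : Fin M, (conj (z l ^ (p : ℕ))) • w ((m : ℤ) + (p : ℤ)) := by
    intro k l
    unfold vv
    rw [Fintype.sum_prod_type]
    refine Finset.sum_congr rfl fun m _ => ?_
    rw [smul_sum]
    refine Finset.sum_congr rfl fun p _ => ?_
    rw [smul_smul]
  rw [Finset.sum_comm]
  have h1 : ∀ l, ∑ k, ‖vv z w M k l‖ ^ 2 =
      L * ∑ m : Fin M, ‖∑ p : Fin M, (conj (z l ^ (p : ℕ))) • w ((m : ℤ) + (p : ℤ))‖ ^ 2 := by
    intro l
    rw [Finset.sum_congr rfl fun k _ => by rw [e k l]]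
    exact parseval hz hM _
  rw [Finset.sum_congr rfl fun l _ => h1 l, ← Finset.mul_sum, Finset.sum_comm]
  have h2 : ∀ m : Fin M,
      ∑ l, ‖∑ p : Fin M, (conj (z l ^ (p : ℕ))) • w ((m : ℤ) + (p : ℤ))‖ ^ 2 =
        L * (M * ‖w 0‖ ^ 2) := by
    intro m
    rw [parseval hz hM]
    congr 1
    rw [Finset.sum_congr rfl fun p _ => by rw [hw.norm_eq]]
    simp
  rw [Finset.sum_congr rfl fun m _ => h2 m]
  simp
  ring

theorem norm_tensor_le {L : ℕ} {z : Fin L → ℂ} (hz : Orth z) {w : ℤ → K} (hw : Stat w) {M : ℕ}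
    (hM : M ≤ L) (e : Fin L → H) (he : ∀ k, ‖e k‖ ≤ 1) :
    ‖∑ k, uu z w M k ⊗ₜ[ℂ] e k‖ ≤ L * M * ‖w 0‖ := by
  refine le_of_sq_le_sq (a := ‖∑ k, uu z w M k ⊗ₜ[ℂ] e k‖) ?_ (by positivity)
  have h1 : ((‖∑ k, uu z w M k ⊗ₜ[ℂ] e k‖ : ℝ) : ℂ) ^ 2 =
      ∑ k, ∑ l, (‖vv z w M k l‖ : ℂ) ^ 2 * ⟪e k, e l⟫_ℂ := by
    have h := inner_self_eq_norm_sq_to_K (𝕜 := ℂ) (∑ k, uu z w M k ⊗ₜ[ℂ] e k)
    refine Eq.trans h.symm ?_
    rw [sum_inner]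
    refine Finset.sum_congr rfl fun k _ => ?_
    rw [inner_sum]
    refine Finset.sum_congr rfl fun l _ => ?_
    rw [TensorProduct.inner_tmul, inner_uu z hw]
  have h2 : ‖∑ k, uu z w M k ⊗ₜ[ℂ] e k‖ ^ 2 ≤ ∑ k, ∑ l, ‖vv z w M k l‖ ^ 2 := by
    have h3 : ‖∑ k, uu z w M k ⊗ₜ[ℂ] e k‖ ^ 2 =
        ‖((‖∑ k, uu z w M k ⊗ₜ[ℂ] e k‖ : ℝ) : ℂ) ^ 2‖ := by
      rw [norm_pow, Complex.norm_real, norm_norm]
    rw [h3, h1]
    refine (norm_sum_le _ _).trans (Finset.sum_le_sum fun k _ => ?_)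
    refine (norm_sum_le _ _).trans (Finset.sum_le_sum fun l _ => ?_)
    rw [norm_mul, norm_pow, Complex.norm_real, norm_norm]
    calc _ ≤ ‖vv z w M k l‖ ^ 2 * (‖e k‖ * ‖e l‖) := by
          gcongr
          exact norm_inner_le_norm _ _
      _ ≤ ‖vv z w M k l‖ ^ 2 * (1 * 1) := by
          gcongr
          · exact he k
          · exact he l
      _ = _ := by ring
  rw [sum_vv hz hw hM] at h2
  calc _ ≤ _ := h2
    _ = _ := by ring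

end Pool.Agent.TH254.FP
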