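import Pool.Agent.TH254.FP.Fin

/-! The main theorem on reduced free products. -/

set_option autoImplicit false

open Finset Filter Topology
open scoped InnerProductSpace ComplexConjugate

namespace Pool.Agent.TH254.FP

section ext

variable {A B W : Type} [CStarAlgebra A] [CStarAlgebra B] [CStarAlgebra W]

/-- products with eigenvectors -/
theorem ud_mul {f : A → A} {β : B →⋆ₐ[ℂ] B} {g : A →⋆ₐ[ℂ] B} (hg : ∀ a, β (g a) = g (f a)) {a : A}
    (ha : UD f a) {w : B} {c : ℂ} (hc : ‖c‖ = 1) (hw : β w = c • w) : UD β (g a * w) := by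
  intro ε hε
  obtain ⟨N0, h0⟩ := ha (ε / (‖w‖ + 1)) (by positivity)
  refine ⟨N0, fun N hN z hz => ?_⟩
  have h1 := h0 N hN (z * c) (by rw [norm_mul, hz, hc, one_mul])
  have hi : ∀ n : ℕ, (⇑β)^[n] (g a * w) = c ^ n • (g (f^[n] a) * w) := by
    intro n
    induction n with
    | zero => simp
    | succ n ih =>
      rw [Function.iterate_succ_apply', Function.iterate_succ_apply', ih, map_smul, map_mul, hg, hw,
        mul_smul_comm, smul_smul, pow_succ]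
  have e : ms β (g a * w) N z = g (ms f a N (z * c)) * w := by
    unfold ms
    rw [map_sum, sum_mul]
    refine sum_congr rfl fun n _ => ?_
    rw [hi, smul_smul, map_smul, smul_mul_assoc, mul_pow, mul_assoc]
  rw [e]
  refine (norm_mul_le _ _).trans ?_
  calc ‖g (ms f a N (z * c))‖ * ‖w‖ ≤ (ε / (‖w‖ + 1) * N) * ‖w‖ := by
        gcongr
        exact (NonUnitalStarAlgHom.norm_apply_le g _).trans h1
    _ = (‖w‖ / (‖w‖ + 1)) * (ε * N) := by ring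
    _ ≤ 1 * (ε * N) := by
        gcongr
        rw [div_le_one (by positivity)]
        linarith
    _ = _ := one_mul _

theorem ud_ext {f : A → A} {β : B →⋆ₐ[ℂ] B} {g : A →⋆ₐ[ℂ] B} (hg : ∀ a, β (g a) = g (f a))
    (hgen : (Submodule.span ℂ {x : B | ∃ a w, ∃ c : ℂ, ‖c‖ = 1 ∧ β w = c • w ∧
      x = g a * w}).topologicalClosure = ⊤) (ha : ∀ a, UD f a) (x : B) : UD β x := by
  refine UD.closed (f := β) (fun x => NonUnitalStarAlgHom.norm_apply_le β x)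
    (s := {x : B | ∃ a w, ∃ c : ℂ, ‖c‖ = 1 ∧ β w = c • w ∧ x = g a * w}) ?_ x (by rw [hgen]; trivial)
  rintro _ ⟨a, w, c, hc, hw, rfl⟩
  exact ud_mul hg (ha a) hc hw

theorem ud_embed {β : B →⋆ₐ[ℂ] B} {γ : W →⋆ₐ[ℂ] W} {κ : W →⋆ₐ[ℂ] B} (hκ : Function.Injective κ)
    (h : ∀ w, κ (γ w) = β (κ w)) {u : W} (hu : UD β (κ u)) : UD γ u := by
  intro ε hε
  obtain ⟨N0, h0⟩ := hu ε hε
  refine ⟨N0, fun N hN z hz => (le_of_eq ?_).trans (h0 N hN z hz)⟩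
  have hi : ∀ n : ℕ, κ ((⇑γ)^[n] u) = (⇑β)^[n] (κ u) := by
    intro n
    induction n with
    | zero => rfl
    | succ n ih => rw [Function.iterate_succ_apply', Function.iterate_succ_apply', h, ih]
  rw [← NonUnitalStarAlgHom.norm_map κ hκ]
  congr 1
  unfold ms
  rw [map_sum]
  exact sum_congr rfl fun n _ => by rw [map_smul, hi]

theorem ud_functional {γ : W → W} {u : W} (hu : UD γ u) (ρ : W →L[ℂ] ℂ) :
    Tendsto (fun N : ℕ => (1 / (N : ℂ)) * ∑ n ∈ Icc 1 N,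
      ((ArithmeticFunction.moebius n : ℤ) : ℂ) * ρ (γ^[n] u)) atTop (𝓝 0) := by
  rw [Metric.tendsto_atTop]
  intro ε hε
  obtain ⟨N0, h0⟩ := hu (ε / (2 * (‖ρ‖ + 1))) (by positivity)
  refine ⟨max N0 1, fun N hN => ?_⟩
  have hN0 : N0 ≤ N := (le_max_left _ _).trans hN
  have hN1 : 1 ≤ N := (le_max_right _ _).trans hN
  have h1 := h0 N hN0 1 norm_one
  have e : ∑ n ∈ Icc 1 N, ((ArithmeticFunction.moebius n : ℤ) : ℂ) * ρ (γ^[n] u) =
      ρ (ms γ u N 1) := by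
    unfold ms
    rw [map_sum]
    refine sum_congr rfl fun n _ => ?_
    rw [map_smul, one_pow, mul_one]
    rfl
  have hNpos : (0 : ℝ) < N := by exact_mod_cast hN1
  rw [dist_zero_right, e, norm_mul, norm_div, norm_one, Complex.norm_natCast]
  calc 1 / (N : ℝ) * ‖ρ (ms γ u N 1)‖ ≤ 1 / (N : ℝ) * (‖ρ‖ * (ε / (2 * (‖ρ‖ + 1)) * N)) := by
        gcongr
        exact (ρ.le_opNorm _).trans (by gcongr)
    _ = (‖ρ‖ / (‖ρ‖ + 1)) * (ε / 2) := by
        field_simp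
    _ ≤ 1 * (ε / 2) := by
        gcongr
        rw [div_le_one (by positivity)]
        linarith
    _ < ε := by linarith

end ext

section main

variable {A ι : Type} [CStarAlgebra A] {φ : A →ₗ[ℂ] ℂ} {S : ι → StarSubalgebra ℂ A}
  {σ : Equiv.Perm ι} {α : A ≃⋆ₐ[ℂ] A}

theorem norm_alpha (α : A ≃⋆ₐ[ℂ] A) (a : A) : ‖α a‖ = ‖a‖ :=
  NonUnitalStarAlgHom.norm_map α α.injective a

theorem main_ud (h1 : φ 1 = 1) (hpos : ∀ a : A, ∃ r : ℝ, 0 ≤ r ∧ φ (star a * a) = r)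
    (hf : ∀ a : A, (∀ b : A, φ (star (a * b) * (a * b)) = 0) → a = 0) (hF : Free φ S)
    (hgen : (StarAlgebra.adjoin ℂ (⋃ i, (S i : Set A))).topologicalClosure = ⊤)
    (h : Perm φ S σ α)
    (hper : ∀ i, (∃ m : ℕ, 0 < m ∧ (σ ^ m) i = i) → (S i : Set A) ⊆
      closure (Submodule.span ℂ {x : A | UD α x ∨ ∃ q : ℕ, 0 < q ∧ ∃ c : ℂ,
        (⇑α)^[q] x = c • x} : Set A)) (x : A) : UD α x := by
  obtain ⟨H, i1, i2, i3, π, ξ, hr⟩ := exists_rep φ h1 hpos hf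
  have hle : ∀ x, ‖α x‖ ≤ ‖x‖ := fun x => (norm_alpha α x).le
  have hper' : ∀ i, (∃ m : ℕ, 0 < m ∧ (σ ^ m) i = i) → ∀ a ∈ S i, Cls Go α a := by
    intro i hi a ha
    rw [← UD_iff hle]
    refine UD.closed hle ?_ a (hper i hi ha)
    rintro y (hy | ⟨q, hq, c, hc⟩)
    · exact hy
    · exact (UD_iff hle y).2 (cls_eigen_pow gauge_Go dv_Go (norm_alpha α) hq hc)
  have h2 := hr.cls_SW hF hgen h gauge_Go (cls_one gauge_Go dv_Go) hper'
  refine UD.closed hle (s := (SW φ S : Set A)) (fun y hy => (UD_iff hle y).2 (h2 y hy)) x ?_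
  rw [Submodule.span_eq, SW_dense h1 hgen]
  trivial

theorem main_rate (h1 : φ 1 = 1) (hpos : ∀ a : A, ∃ r : ℝ, 0 ≤ r ∧ φ (star a * a) = r)
    (hf : ∀ a : A, (∀ b : A, φ (star (a * b) * (a * b)) = 0) → a = 0) (hF : Free φ S)
    (hgen : (StarAlgebra.adjoin ℂ (⋃ i, (S i : Set A))).topologicalClosure = ⊤)
    (h : Perm φ S σ α) (U : ℕ)
    (hper : ∀ i, (∃ m : ℕ, 0 < m ∧ (σ ^ m) i = i) → ∀ a ∈ S i, a ∈
      Submodule.span ℂ {x : A | Cls (Gr U) α x ∨ ∃ q : ℕ, 0 < q ∧ ∃ c : ℂ,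
        (⇑α)^[q] x = c • x}) (x : A)
    (hx : x ∈ StarAlgebra.adjoin ℂ (⋃ i, (S i : Set A))) : Cls (Gr U) α x := by
  obtain ⟨H, i1, i2, i3, π, ξ, hr⟩ := exists_rep φ h1 hpos hf
  have hper' : ∀ i, (∃ m : ℕ, 0 < m ∧ (σ ^ m) i = i) → ∀ a ∈ S i, Cls (Gr U) α a := by
    intro i hi a ha
    refine Cls.span (gauge_Gr U) ?_ a (hper i hi a ha)
    rintro y (hy | ⟨q, hq, c, hc⟩)
    · exact hy
    · exact cls_eigen_pow (gauge_Gr U) (dv_Gr U) (norm_alpha α) hq hc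
  have h2 := hr.cls_SW hF hgen h (gauge_Gr U) (cls_one (gauge_Gr U) (dv_Gr U)) hper'
  exact h2 x (adjoin_sub_SW h1 x hx)

end main

end Pool.Agent.TH254.FP
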