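import Pool.Agent.TH254.FP.Words

/-! Bounds for the diagonal parts. -/

set_option autoImplicit false

open Finset TensorProduct Filter Topology
open scoped InnerProductSpace ComplexConjugate

namespace Pool.Agent.TH254.FP

variable {H ι : Type} [NormedAddCommGroup H] [InnerProductSpace ℂ H] [CompleteSpace H]
variable {Q : ι → (H →L[ℂ] H)} {ξ : H} {T : ι → Set (H →L[ℂ] H)}

omit [CompleteSpace H] in
theorem nsq (v : H) : ((‖v‖ : ℝ) : ℂ) ^ 2 = ⟪v, v⟫_ℂ := by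
  have h := inner_self_eq_norm_sq_to_K (𝕜 := ℂ) v
  exact h.symm

theorem FQ.inner_Q (h : FQ Q ξ T) (i j : ι) (x y : H) :
    ⟪Q i x, Q j y⟫_ℂ = ⟪x, (Q i * Q j) y⟫_ℂ := by
  rw [inner_star_mul, h.sa]

theorem FQ.pyth (h : FQ Q ξ T) (J : Finset ι) (v : ι → H) :
    ‖∑ j ∈ J, Q j (v j)‖ ^ 2 = ∑ j ∈ J, ‖Q j (v j)‖ ^ 2 := by
  classical
  have e : ((‖∑ j ∈ J, Q j (v j)‖ : ℝ) : ℂ) ^ 2 = ∑ j ∈ J, ((‖Q j (v j)‖ : ℝ) : ℂ) ^ 2 := by
    rw [nsq, sum_inner]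
    refine Finset.sum_congr rfl fun i hi => ?_
    rw [inner_sum, nsq]
    refine (Finset.sum_eq_single i (fun j _ hj => ?_) (fun h' => absurd hi h')).trans rfl
    rw [h.inner_Q, h.orth i j hj.symm]
    simp
  exact_mod_cast e

theorem FQ.bessel (h : FQ Q ξ T) (J : Finset ι) (x : H) :
    ∑ j ∈ J, ‖Q j x‖ ^ 2 ≤ ‖x‖ ^ 2 := by
  have h1 := h.pyth J (fun _ => x)
  have h2 : ‖∑ j ∈ J, Q j x‖ ^ 2 ≤ ‖∑ j ∈ J, Q j x‖ * ‖x‖ := by
    have e : ⟪∑ j ∈ J, Q j x, x⟫_ℂ = ((∑ j ∈ J, ‖Q j x‖ ^ 2 : ℝ) : ℂ) := by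
      rw [sum_inner]
      push_cast
      refine Finset.sum_congr rfl fun i _ => ?_
      have h3 : ⟪Q i x, x⟫_ℂ = ⟪Q i x, Q i x⟫_ℂ := by
        rw [h.inner_Q, h.idem]
        have := inner_star_mul (Q i) 1 x x
        rw [h.sa, mul_one] at this
        exact this
      rw [h3, nsq]
    rw [h1]
    have h4 : ‖⟪∑ j ∈ J, Q j x, x⟫_ℂ‖ ≤ ‖∑ j ∈ J, Q j x‖ * ‖x‖ := norm_inner_le_norm _ _
    rw [e, Complex.norm_real, Real.norm_of_nonneg (Finset.sum_nonneg fun _ _ => sq_nonneg _)] at h4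
    exact h4
  rw [← h1]
  by_cases h0 : ‖∑ j ∈ J, Q j x‖ = 0
  · rw [h0, zero_pow two_ne_zero]; exact sq_nonneg _
  · have hpos : 0 < ‖∑ j ∈ J, Q j x‖ := lt_of_le_of_ne (norm_nonneg _) (Ne.symm h0)
    have : ‖∑ j ∈ J, Q j x‖ ≤ ‖x‖ := by nlinarith
    gcongr

/-- pinching -/
theorem FQ.pinch (h : FQ Q ξ T) (J : Finset ι) (S : ι → (H →L[ℂ] H)) (B : ℝ) (hB0 : 0 ≤ B)
    (hB : ∀ j ∈ J, ‖S j‖ ≤ B) : ‖∑ j ∈ J, Q j * S j * Q j‖ ≤ B := by
  refine ContinuousLinearMap.opNorm_le_bound _ hB0 fun x => ?_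
  have e : (∑ j ∈ J, Q j * S j * Q j) x = ∑ j ∈ J, Q j (S j (Q j x)) := by
    simp
  rw [e]
  have h1 := h.pyth J (fun j => S j (Q j x))
  have hQ : ∀ j (v : H), ‖Q j v‖ ≤ ‖v‖ := by
    intro j v
    have := h.bessel {j} v
    simp only [Finset.sum_singleton] at this
    exact (pow_le_pow_iff_left₀ (norm_nonneg _) (norm_nonneg _) two_ne_zero).1 this
  have h2 : ‖∑ j ∈ J, Q j (S j (Q j x))‖ ^ 2 ≤ (B * ‖x‖) ^ 2 := by
    rw [h1]
    calc ∑ j ∈ J, ‖Q j (S j (Q j x))‖ ^ 2 ≤ ∑ j ∈ J, B ^ 2 * ‖Q j x‖ ^ 2 := by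
          refine Finset.sum_le_sum fun j hj => ?_
          rw [← mul_pow]
          gcongr
          refine (hQ _ _).trans ((S j).le_opNorm _ |>.trans ?_)
          gcongr
          exact hB j hj
      _ = B ^ 2 * ∑ j ∈ J, ‖Q j x‖ ^ 2 := by rw [Finset.mul_sum]
      _ ≤ B ^ 2 * ‖x‖ ^ 2 := by
          gcongr
          exact h.bessel J x
      _ = _ := by ring
  exact (pow_le_pow_iff_left₀ (norm_nonneg _) (by positivity) two_ne_zero).1 h2

theorem FQ.off_diag (h : FQ Q ξ T) {i j : ι} (hij : j ≠ i) {t : H →L[ℂ] H} (ht : t ∈ T i) :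
    Q j * t * Q j = 0 := by
  have h1 : Q j = Q j * (1 - Q i) := by rw [mul_sub, mul_one, h.orth j i hij, sub_zero]
  have h2 : Q j = (1 - Q i) * Q j := by rw [sub_mul, one_mul, h.orth i j hij.symm, sub_zero]
  calc Q j * t * Q j = (Q j * (1 - Q i)) * t * ((1 - Q i) * Q j) := by rw [← h1, ← h2]
    _ = Q j * ((1 - Q i) * t * (1 - Q i)) * Q j := by noncomm_ring
    _ = 0 := by rw [h.cen i t ht]; simp

/-- the diagonal parts of a letter are bounded by the letter -/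
theorem FQ.di_le (h : FQ Q ξ T) (p : Lt H ι) (hp : ∀ n, p.2 n ∈ T (p.1 n)) (N : ℕ) (c : ℕ → ℂ) :
    ‖∑ n ∈ range N, c n • di Q (p.1 n) (p.2 n)‖ ≤ ‖∑ n ∈ range N, c n • p.2 n‖ := by
  classical
  set X := ∑ n ∈ range N, c n • p.2 n with hX
  set J : Finset ι := (range N).image fun n : ℕ => p.1 n with hJ
  have e : ∑ n ∈ range N, c n • di Q (p.1 n) (p.2 n) = ∑ j ∈ J, Q j * X * Q j := by
    have e1 : ∀ j ∈ J, Q j * X * Q j = ∑ n ∈ range N,
        if p.1 n = j then c n • di Q (p.1 n) (p.2 n) else 0 := by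
      intro j _
      rw [hX, Finset.mul_sum, Finset.sum_mul]
      refine Finset.sum_congr rfl fun n _ => ?_
      rw [mul_smul_comm, smul_mul_assoc]
      split_ifs with h1
      · subst h1; rfl
      · rw [h.off_diag (fun h2 => h1 h2.symm) (hp n), smul_zero]
    rw [Finset.sum_congr rfl e1, Finset.sum_comm]
    refine Finset.sum_congr rfl fun n hn => ?_
    rw [Finset.sum_ite_eq, if_pos (Finset.mem_image_of_mem _ hn)]
  rw [e]
  exact h.pinch J (fun _ => X) _ (norm_nonneg _) fun _ _ => le_rfl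

/-- the diagonal parts of a letter with distinct indices -/
theorem FQ.di_inj (h : FQ Q ξ T) (p : Lt H ι) (hi : Function.Injective fun n : ℕ => p.1 n) (N : ℕ)
    (c : ℕ → ℂ) (hc : ∀ n, ‖c n‖ ≤ 1) (hp : ∀ n, ‖p.2 n‖ ≤ 1) :
    ‖∑ n ∈ range N, c n • di Q (p.1 n) (p.2 n)‖ ≤ 1 := by
  classical
  set J : Finset ι := (range N).image fun n : ℕ => p.1 n with hJ
  set S : ι → (H →L[ℂ] H) := Function.extend (fun n : ℕ => p.1 n) (fun n : ℕ => c n • p.2 n) 0 with hS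
  have hS1 : ∀ n : ℕ, S (p.1 n) = c n • p.2 n := fun n => hi.extend_apply _ _ n
  have e : ∑ n ∈ range N, c n • di Q (p.1 n) (p.2 n) = ∑ j ∈ J, Q j * S j * Q j := by
    rw [hJ, Finset.sum_image (fun a _ b _ hab => hi hab)]
    refine Finset.sum_congr rfl fun n _ => ?_
    rw [hS1, mul_smul_comm, smul_mul_assoc]
    rfl
  rw [e]
  refine h.pinch J S _ zero_le_one fun j hj => ?_
  rw [hJ, Finset.mem_image] at hj
  obtain ⟨n, _, rfl⟩ := hj
  rw [hS1, norm_smul]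
  exact mul_le_one₀ (hc n) (norm_nonneg _) (hp n)

end Pool.Agent.TH254.FP
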