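import Pool.Agent.TH254.FP.Kernel

/-! The transference inequality. -/

set_option autoImplicit false

open Finset TensorProduct Filter Topology
open scoped InnerProductSpace ComplexConjugate

namespace Pool.Agent.TH254.FP

variable {H K : Type*} [NormedAddCommGroup H] [InnerProductSpace ℂ H] [CompleteSpace H]
  [NormedAddCommGroup K] [InnerProductSpace ℂ K]

/-- the Fourier coefficients of the sequence `(C n)† x` -/
noncomputable def XX {L : ℕ} (z : Fin L → ℂ) (C : ℤ → (H →L[ℂ] H)) (M : ℕ) (x : H) (k : Fin L) : H :=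
  ∑ p : Fin M × Fin M, (z k ^ (p.1 : ℕ) * conj (z k ^ (p.2 : ℕ))) •
    ContinuousLinearMap.adjoint (C ((p.1 : ℤ) - (p.2 : ℤ))) x

theorem sum_norm_XX {L : ℕ} {z : Fin L → ℂ} (hz : Orth z) {C : ℤ → (H →L[ℂ] H)} {w : ℤ → K}
    (hC : Dom C w) (hw : Stat w) {M : ℕ} (hM : M ≤ L) (x : H) :
    ∑ k, ‖XX z C M x k‖ ≤ L * M * ‖w 0‖ * ‖x‖ := by
  set e : Fin L → H := fun k => ((‖XX z C M x k‖ : ℂ)⁻¹) • XX z C M x k with he
  have he1 : ∀ k, ‖e k‖ ≤ 1 := by
    intro k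
    rw [he]
    simp only
    rw [norm_smul, norm_inv, Complex.norm_real, norm_norm]
    by_cases h : ‖XX z C M x k‖ = 0
    · rw [h]; simp
    · rw [inv_mul_cancel₀ h]
  have he2 : ∀ k, ⟪e k, XX z C M x k⟫_ℂ = (‖XX z C M x k‖ : ℂ) := by
    intro k
    rw [he]
    simp only
    rw [inner_smul_left, inner_self_eq_norm_sq_to_K, map_inv₀, Complex.conj_ofReal]
    by_cases h : (‖XX z C M x k‖ : ℂ) = 0
    · have : ‖XX z C M x k‖ = 0 := by exact_mod_cast h
      rw [h, inv_zero, zero_mul]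
    · change (‖XX z C M x k‖ : ℂ)⁻¹ * (‖XX z C M x k‖ : ℂ) ^ 2 = _
      field_simp
  set h : Fin L × (Fin M × Fin M) → H := fun q =>
    (conj (z q.1 ^ (q.2.1 : ℕ)) * z q.1 ^ (q.2.2 : ℕ)) • e q.1 with hh
  set nn : Fin L × (Fin M × Fin M) → ℤ := fun q => (q.2.1 : ℤ) - (q.2.2 : ℤ) with hnn
  have h1 : ∑ k, (‖XX z C M x k‖ : ℂ) = ⟪∑ q, C (nn q) (h q), x⟫_ℂ := by
    rw [sum_inner, Fintype.sum_prod_type]
    refine Finset.sum_congr rfl fun k _ => ?_
    rw [← he2 k]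
    conv_lhs => rw [XX, inner_sum]
    refine Finset.sum_congr rfl fun p _ => ?_
    have e3 : C (nn (k, p)) (h (k, p)) = (conj (z k ^ (p.1 : ℕ)) * z k ^ (p.2 : ℕ)) •
        C ((p.1 : ℤ) - (p.2 : ℤ)) (e k) := by
      rw [hh, hnn]
      simp only
      rw [map_smul]
    rw [e3, inner_smul_right, ContinuousLinearMap.adjoint_inner_right, inner_smul_left, map_mul,
      Complex.conj_conj]
  have h2 : ∑ q, w (nn q) ⊗ₜ[ℂ] h q = ∑ k, uu z w M k ⊗ₜ[ℂ] e k := by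
    rw [Fintype.sum_prod_type]
    refine Finset.sum_congr rfl fun k _ => ?_
    rw [uu, TensorProduct.sum_tmul]
    refine Finset.sum_congr rfl fun p _ => ?_
    rw [hh, hnn]
    simp only
    rw [TensorProduct.tmul_smul, TensorProduct.smul_tmul']
  have h3 : ∑ k, ‖XX z C M x k‖ = ‖⟪∑ q, C (nn q) (h q), x⟫_ℂ‖ := by
    rw [← h1]
    have : ∑ k, (‖XX z C M x k‖ : ℂ) = ((∑ k, ‖XX z C M x k‖ : ℝ) : ℂ) := by push_cast; rfl
    rw [this, Complex.norm_real, Real.norm_of_nonneg (Finset.sum_nonneg fun _ _ => norm_nonneg _)]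
  rw [h3]
  refine (norm_inner_le_norm _ _).trans ?_
  gcongr
  refine (hC _ nn h).trans ?_
  rw [h2]
  exact norm_tensor_le hz hw hM e he1

theorem sum_XX {L : ℕ} {z : Fin L → ℂ} (hz : Orth z) (C : ℤ → (H →L[ℂ] H)) {M : ℕ}
    (hM : 2 * M ≤ L) (x : H) (n : ℕ) (hn : n < M) :
    ∑ k, conj (z k ^ n) • XX z C M x k =
      ((L : ℂ) * ((M : ℂ) - n)) • ContinuousLinearMap.adjoint (C n) x := by
  have h1 : ∀ k, conj (z k ^ n) • XX z C M x k = ∑ p : Fin M × Fin M,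
      (z k ^ (p.1 : ℕ) * conj (z k ^ ((p.2 : ℕ) + n))) •
        ContinuousLinearMap.adjoint (C ((p.1 : ℤ) - (p.2 : ℤ))) x := by
    intro k
    rw [XX, smul_sum]
    refine Finset.sum_congr rfl fun p _ => ?_
    rw [smul_smul]
    congr 1
    rw [pow_add, map_mul]
    ring
  rw [Finset.sum_congr rfl fun k _ => h1 k, Finset.sum_comm]
  have h2 : ∀ p : Fin M × Fin M, ∑ k, (z k ^ (p.1 : ℕ) * conj (z k ^ ((p.2 : ℕ) + n))) •
        ContinuousLinearMap.adjoint (C ((p.1 : ℤ) - (p.2 : ℤ))) x =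
      if (p.1 : ℕ) = (p.2 : ℕ) + n then (L : ℂ) • ContinuousLinearMap.adjoint (C n) x else 0 := by
    intro p
    have l1 := p.1.2
    have l2 := p.2.2
    rw [← Finset.sum_smul, hz.2 _ _ (by omega) (by omega)]
    by_cases h : (p.1 : ℕ) = (p.2 : ℕ) + n
    · rw [if_pos h, if_pos h]
      have : ((p.1 : ℕ) : ℤ) - ((p.2 : ℕ) : ℤ) = n := by rw [h]; push_cast; ring
      rw [this]
    · rw [if_neg h, if_neg h, zero_smul]
  rw [Finset.sum_congr rfl fun p _ => h2 p, Fintype.sum_prod_type, Finset.sum_comm]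
  have h3 : ∀ p2 : Fin M, ∑ p1 : Fin M, (if (p1 : ℕ) = (p2 : ℕ) + n then
      (L : ℂ) • ContinuousLinearMap.adjoint (C n) x else 0) =
      if (p2 : ℕ) < M - n then (L : ℂ) • ContinuousLinearMap.adjoint (C n) x else 0 := by
    intro p2
    by_cases h : (p2 : ℕ) < M - n
    · rw [if_pos h, Finset.sum_eq_single (⟨(p2 : ℕ) + n, by omega⟩ : Fin M)]
      · rw [if_pos rfl]
      · intro b _ hb
        rw [if_neg]
        intro h'
        exact hb (Fin.ext h')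
      · intro h'; exact absurd (mem_univ _) h'
    · rw [if_neg h]
      refine Finset.sum_eq_zero fun p1 _ => ?_
      rw [if_neg]
      have := p1.2
      omega
  rw [Finset.sum_congr rfl fun p2 _ => h3 p2, Fin.sum_univ_eq_sum_range
    (fun i => if i < M - n then (L : ℂ) • ContinuousLinearMap.adjoint (C n) x else 0) M,
    Finset.sum_ite, Finset.sum_const_zero, add_zero, Finset.sum_const]
  have h4 : ((Finset.range M).filter fun i => i < M - n).card = M - n := by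
    have : (Finset.range M).filter (fun i => i < M - n) = Finset.range (M - n) := by
      ext i; simp; omega
    rw [this, Finset.card_range]
  rw [h4, ← Nat.cast_smul_eq_nsmul ℂ, smul_smul, Nat.cast_sub hn.le]
  congr 1
  ring

/-- The transference inequality, with Fejer weights. -/
theorem transfer_aux {C C' : ℤ → (H →L[ℂ] H)} {w w' : ℤ → K} (hC : Dom C w) (hw : Stat w)
    (hC' : Dom C' w') (hw' : Stat w') (N : ℕ) (D : ℕ → (H →L[ℂ] H)) (B : ℝ)
    (hB : ∀ z : ℂ, ‖z‖ = 1 → ‖∑ n ∈ range N, z ^ n • D n‖ ≤ B) (x y : H) (M : ℕ) (hM : N ≤ M)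
    (hM0 : 0 < M) :
    ‖∑ n ∈ range N, (((M : ℂ) - n) / M) ^ 2 *
      ⟪ContinuousLinearMap.adjoint (C n) y, D n (ContinuousLinearMap.adjoint (C' n) x)⟫_ℂ‖ ≤
      ‖w 0‖ * ‖w' 0‖ * B * ‖x‖ * ‖y‖ := by
  have hB0 : 0 ≤ B := (norm_nonneg _).trans (hB 1 norm_one)
  set L : ℕ := 2 * M with hL
  obtain ⟨z, hz1, hz2⟩ := exists_roots L (by omega)
  have hz : Orth z := ⟨hz1, hz2⟩
  have hL0 : (0 : ℝ) < L := by rw [hL]; positivity
  have hM0' : (0 : ℝ) < M := by exact_mod_cast hM0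
  have hLc : (L : ℂ) ≠ 0 := by exact_mod_cast hL0.ne'
  have hMc : (M : ℂ) ≠ 0 := by exact_mod_cast hM0'.ne'
  have hX := sum_norm_XX hz hC' hw' (M := M) (by omega) x
  have hY := sum_norm_XX hz hC hw (M := M) (by omega) y
  -- expand
  have h1 : ∀ n ∈ range N, ((L : ℂ) * M) ^ 2 * ((((M : ℂ) - n) / M) ^ 2 *
      ⟪ContinuousLinearMap.adjoint (C n) y, D n (ContinuousLinearMap.adjoint (C' n) x)⟫_ℂ) =
      ∑ l, ∑ k, ⟪XX z C M y l, (z l * conj (z k)) ^ n • D n (XX z C' M x k)⟫_ℂ := by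
    intro n hn
    have hn' : n < M := (mem_range.1 hn).trans_le hM
    have hx := sum_XX hz C' (M := M) (by omega) x n hn'
    have hy := sum_XX hz C (M := M) (by omega) y n hn'
    have e1 : ⟪∑ l, conj (z l ^ n) • XX z C M y l, D n (∑ k, conj (z k ^ n) • XX z C' M x k)⟫_ℂ =
        ((L : ℂ) * M) ^ 2 * ((((M : ℂ) - n) / M) ^ 2 *
      ⟪ContinuousLinearMap.adjoint (C n) y, D n (ContinuousLinearMap.adjoint (C' n) x)⟫_ℂ) := by
      rw [hx, hy, map_smul, inner_smul_left, inner_smul_right]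
      have : conj ((L : ℂ) * ((M : ℂ) - n)) = (L : ℂ) * ((M : ℂ) - n) := by
        rw [map_mul, map_sub, Complex.conj_natCast, Complex.conj_natCast, Complex.conj_natCast]
      rw [this]
      field_simp
    rw [← e1, sum_inner]
    refine Finset.sum_congr rfl fun l _ => ?_
    rw [map_sum, inner_sum]
    refine Finset.sum_congr rfl fun k _ => ?_
    rw [map_smul, inner_smul_left, inner_smul_right, inner_smul_right, Complex.conj_conj, mul_pow,
      map_pow]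
    ring
  have h2 : ((L : ℂ) * M) ^ 2 * ∑ n ∈ range N, (((M : ℂ) - n) / M) ^ 2 *
      ⟪ContinuousLinearMap.adjoint (C n) y, D n (ContinuousLinearMap.adjoint (C' n) x)⟫_ℂ =
      ∑ l, ∑ k, ⟪XX z C M y l, (∑ n ∈ range N, (z l * conj (z k)) ^ n • D n) (XX z C' M x k)⟫_ℂ := by
    rw [mul_sum, Finset.sum_congr rfl h1, Finset.sum_comm]
    refine Finset.sum_congr rfl fun l _ => ?_
    rw [Finset.sum_comm]
    refine Finset.sum_congr rfl fun k _ => ?_
    rw [← inner_sum]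
    congr 1
    simp
  have h3 : ‖∑ l, ∑ k, ⟪XX z C M y l,
      (∑ n ∈ range N, (z l * conj (z k)) ^ n • D n) (XX z C' M x k)⟫_ℂ‖ ≤
      (∑ l, ‖XX z C M y l‖) * B * (∑ k, ‖XX z C' M x k‖) := by
    refine (norm_sum_le _ _).trans ?_
    rw [Finset.sum_mul, Finset.sum_mul]
    refine Finset.sum_le_sum fun l _ => ?_
    refine (norm_sum_le _ _).trans ?_
    rw [Finset.mul_sum]
    refine Finset.sum_le_sum fun k _ => ?_
    refine (norm_inner_le_norm _ _).trans ?_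
    rw [mul_assoc]
    gcongr
    refine (ContinuousLinearMap.le_opNorm _ _).trans ?_
    gcongr
    refine hB _ ?_
    rw [norm_mul, RCLike.norm_conj, hz1, hz1, one_mul]
  have h4 : ((L : ℝ) * M) ^ 2 * ‖∑ n ∈ range N, (((M : ℂ) - n) / M) ^ 2 *
      ⟪ContinuousLinearMap.adjoint (C n) y, D n (ContinuousLinearMap.adjoint (C' n) x)⟫_ℂ‖ ≤
      ((L : ℝ) * M) ^ 2 * (‖w 0‖ * ‖w' 0‖ * B * ‖x‖ * ‖y‖) := by
    calc _ = ‖((L : ℂ) * M) ^ 2 * ∑ n ∈ range N, (((M : ℂ) - n) / M) ^ 2 *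
      ⟪ContinuousLinearMap.adjoint (C n) y, D n (ContinuousLinearMap.adjoint (C' n) x)⟫_ℂ‖ := by
          rw [norm_mul, norm_pow, norm_mul, Complex.norm_natCast, Complex.norm_natCast]
      _ ≤ (∑ l, ‖XX z C M y l‖) * B * (∑ k, ‖XX z C' M x k‖) := by rw [h2]; exact h3
      _ ≤ (L * M * ‖w 0‖ * ‖y‖) * B * (L * M * ‖w' 0‖ * ‖x‖) := by gcongr
      _ = _ := by ring
  exact le_of_mul_le_mul_left h4 (by positivity)

/-- **The transference inequality.** -/
theorem transfer {C C' : ℤ → (H →L[ℂ] H)} {w w' : ℤ → K} (hC : Dom C w) (hw : Stat w)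
    (hC' : Dom C' w') (hw' : Stat w') (N : ℕ) (D : ℕ → (H →L[ℂ] H)) (B : ℝ)
    (hB : ∀ z : ℂ, ‖z‖ = 1 → ‖∑ n ∈ range N, z ^ n • D n‖ ≤ B) :
    ‖∑ n ∈ range N, C n * D n * ContinuousLinearMap.adjoint (C' n)‖ ≤ ‖w 0‖ * ‖w' 0‖ * B := by
  have hB0 : 0 ≤ B := (norm_nonneg _).trans (hB 1 norm_one)
  refine ContinuousLinearMap.opNorm_le_bound _ (by positivity) fun x => ?_
  set T : H →L[ℂ] H := ∑ n ∈ range N, C n * D n * ContinuousLinearMap.adjoint (C' n) with hT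
  -- the inner product against `y`
  have h1 : ∀ y : H, ‖⟪y, T x⟫_ℂ‖ ≤ ‖w 0‖ * ‖w' 0‖ * B * ‖x‖ * ‖y‖ := by
    intro y
    have e : ⟪y, T x⟫_ℂ = ∑ n ∈ range N,
        ⟪ContinuousLinearMap.adjoint (C n) y, D n (ContinuousLinearMap.adjoint (C' n) x)⟫_ℂ := by
      rw [hT]
      simp only [ContinuousLinearMap.coe_sum', Finset.sum_apply, ContinuousLinearMap.mul_apply',
        inner_sum, ContinuousLinearMap.adjoint_inner_left]
      rfl
    have hlim : Tendsto (fun M : ℕ => ‖∑ n ∈ range N, (((M : ℂ) - n) / M) ^ 2 *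
      ⟪ContinuousLinearMap.adjoint (C n) y, D n (ContinuousLinearMap.adjoint (C' n) x)⟫_ℂ‖) atTop
        (𝓝 ‖∑ n ∈ range N, (1 : ℂ) ^ 2 *
      ⟪ContinuousLinearMap.adjoint (C n) y, D n (ContinuousLinearMap.adjoint (C' n) x)⟫_ℂ‖) := by
      refine Tendsto.norm (tendsto_finset_sum _ fun n _ => Tendsto.mul_const _ (Tendsto.pow ?_ 2))
      have h5 : Tendsto (fun M : ℕ => 1 - (n : ℂ) / M) atTop (𝓝 (1 - 0)) :=
        tendsto_const_nhds.sub (tendsto_const_div_atTop_nhds_zero_nat (n : ℂ))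
      rw [sub_zero] at h5
      refine h5.congr' ?_
      filter_upwards [eventually_gt_atTop 0] with M hM
      have : (M : ℂ) ≠ 0 := by exact_mod_cast hM.ne'
      field_simp
    have h6 := le_of_tendsto hlim (b := ‖w 0‖ * ‖w' 0‖ * B * ‖x‖ * ‖y‖) (by
      filter_upwards [eventually_gt_atTop 0, eventually_ge_atTop N] with M hM hM'
      exact transfer_aux hC hw hC' hw' N D B hB x y M hM' hM)
    rw [e]
    simpa using h6
  have h2 := h1 (T x)
  rw [inner_self_eq_norm_sq_to_K] at h2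
  have h3 : ‖T x‖ ^ 2 ≤ ‖w 0‖ * ‖w' 0‖ * B * ‖x‖ * ‖T x‖ := by
    have h4 : ‖((‖T x‖ : ℝ) : ℂ) ^ 2‖ ≤ ‖w 0‖ * ‖w' 0‖ * B * ‖x‖ * ‖T x‖ := h2
    rwa [norm_pow, Complex.norm_real, norm_norm] at h4
  by_cases h0 : ‖T x‖ = 0
  · rw [h0]; positivity
  · have hpos : 0 < ‖T x‖ := lt_of_le_of_ne (norm_nonneg _) (Ne.symm h0)
    nlinarith

end Pool.Agent.TH254.FP
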