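import Pool.Agent.TH254.FP.Cre

/-! Norm bounds for sums over the orbit of an alternating word. -/

set_option autoImplicit false

open Finset TensorProduct Filter Topology
open scoped InnerProductSpace ComplexConjugate

namespace Pool.Agent.TH254.FP

variable {H ι : Type} [NormedAddCommGroup H] [InnerProductSpace ℂ H] [CompleteSpace H]
variable {Q : ι → (H →L[ℂ] H)} {ξ : H} {T : ι → Set (H →L[ℂ] H)}

/-- the adjoint letter -/
noncomputable def sl (p : Lt H ι) : Lt H ι := (p.1, fun n => star (p.2 n))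

/-- the adjoint word -/
noncomputable def ad (W : List (Lt H ι)) : List (Lt H ι) := (W.map sl).reverse

theorem FQ.good_ad (h : FQ Q ξ T) {W : List (Lt H ι)} (hW : Good T W) : Good T (ad W) := by
  constructor
  · intro p hp n
    simp only [ad, List.mem_reverse, List.mem_map] at hp
    obtain ⟨q, hq, rfl⟩ := hp
    exact h.adj _ _ (hW.mem q hq n)
  · rw [ad, List.isChain_reverse, List.isChain_map]
    refine hW.alt.imp fun p q hpq n => ?_
    exact (hpq n).symm

/-- product of annihilation parts -/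
noncomputable def AA (Q : ι → (H →L[ℂ] H)) (W : List (Lt H ι)) (n : ℤ) : H →L[ℂ] H :=
  star (CC Q (ad W) n)

theorem FQ.AA_cons (h : FQ Q ξ T) (p : Lt H ι) (W : List (Lt H ι)) (n : ℤ) :
    AA Q (p :: W) n = an Q (p.1 n) (p.2 n) * AA Q W n := by
  have : ad (p :: W) = ad W ++ [sl p] := by simp [ad]
  rw [AA, this, CC_append, star_mul, AA]
  congr 1
  simp only [CC, List.map_cons, List.map_nil, List.prod_cons, List.prod_nil, mul_one, sl]
  exact h.star_cr _ _

theorem AA_nil (n : ℤ) : AA Q ([] : List (Lt H ι)) n = 1 := by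
  simp [AA, ad, CC]

theorem FQ.Q_FF (h : FQ Q ξ T) (n : ℤ) : ∀ (W : List (Lt H ι)), Good T W → ∀ j : ι,
    (∀ p ∈ W.head?, j ≠ p.1 n) → Q j * FF W n = Q j * AA Q W n
  | [], _, j, _ => by rw [AA_nil]; simp [FF]
  | p :: W, hW, j, hj => by
    have hjp : j ≠ p.1 n := hj p (by simp)
    have hd := h.decomp (hW.mem p (by simp) n)
    have hne : ∀ q ∈ W.head?, p.1 n ≠ q.1 n := by
      intro q hq
      cases W with
      | nil => simp at hq
      | cons q' W' =>
        simp only [List.head?_cons, Option.mem_def, Option.some.injEq] at hq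
        subst hq
        exact (List.isChain_cons_cons.1 hW.alt).1 n
    have ih := h.Q_FF n W hW.tail (p.1 n) hne
    rw [FF_cons, h.AA_cons]
    have e : Q j * (p.2 n * FF W n) = (Q j * p.2 n) * FF W n := by rw [mul_assoc]
    have e2 : Q j * p.2 n = Q j * an Q (p.1 n) (p.2 n) := by
      conv_lhs => rw [hd]
      have e3 : Q j * (cr Q (p.1 n) (p.2 n) + di Q (p.1 n) (p.2 n) + an Q (p.1 n) (p.2 n)) =
          (Q j * Q (p.1 n)) * (p.2 n * (1 - Q (p.1 n)) + p.2 n * Q (p.1 n)) +
          Q j * an Q (p.1 n) (p.2 n) := by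
        unfold cr di; noncomm_ring
      rw [e3, h.orth _ _ hjp]
      simp
    rw [e, e2]
    have e4 : an Q (p.1 n) (p.2 n) = an Q (p.1 n) (p.2 n) * Q (p.1 n) := by
      unfold an; rw [mul_assoc, mul_assoc, mul_assoc, h.idem]
    rw [e4, mul_assoc, mul_assoc, ih]
    simp only [mul_assoc]

/-- The data on the letters which is used in the norm bounds: a set of letters, of norm at most one,
closed under adjoints, such that the products of the letters are stationary on the vacuum. -/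
structure Letters (T : ι → Set (H →L[ℂ] H)) (ξ : H) (P : Set (Lt H ι)) : Prop where
  mem : ∀ p ∈ P, ∀ n, p.2 n ∈ T (p.1 n)
  norm : ∀ p ∈ P, ∀ n, ‖p.2 n‖ ≤ 1
  sl : ∀ p ∈ P, sl p ∈ P
  stat : ∀ W : List (Lt H ι), (∀ p ∈ W, p ∈ P) → Stat (fun n => FF W n ξ)

theorem norm_FF_le {W : List (Lt H ι)} {P : Set (Lt H ι)} (hP : Letters T ξ P)
    (hW : ∀ p ∈ W, p ∈ P) (n : ℤ) : ‖FF W n‖ ≤ 1 := by
  induction W with
  | nil =>
    have : FF ([] : List (Lt H ι)) n = ContinuousLinearMap.id ℂ H := by simp [FF]; rfl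
    rw [this]
    exact ContinuousLinearMap.norm_id_le
  | cons p W ih =>
    rw [FF_cons]
    refine (norm_mul_le _ _).trans ?_
    have h1 := hP.norm p (hW p (by simp)) n
    have h2 := ih fun q hq => hW q (List.mem_cons_of_mem _ hq)
    exact mul_le_one₀ h1 (norm_nonneg _) h2

theorem FQ.CC_vac (h : FQ Q ξ T) (n : ℤ) : ∀ (W : List (Lt H ι)), Good T W →
    CC Q W n ξ = FF W n ξ
  | [], _ => by simp [CC, FF]
  | [p], hW => by
    simp only [CC, FF, List.map_cons, List.map_nil, List.prod_cons, List.prod_nil, mul_one]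
    rw [h.cr_eq (hW.mem p (by simp) n)]
    change p.2 n ((1 - Q (p.1 n)) ξ) = _
    congr 1
    simp [h.vac]
  | p :: q :: W, hW => by
    have hpq : p.1 n ≠ q.1 n := (List.isChain_cons_cons.1 hW.alt).1 n
    rw [CC_cons p, FF_cons p, h.cr_eq (hW.mem p (by simp) n), mul_assoc, sub_mul, one_mul,
      h.Q_CC _ q W n hpq, sub_zero]
    change p.2 n (CC Q (q :: W) n ξ) = p.2 n (FF (q :: W) n ξ)
    rw [h.CC_vac n (q :: W) hW.tail]

theorem FQ.statCC (h : FQ Q ξ T) {P : Set (Lt H ι)} (hP : Letters T ξ P) {W : List (Lt H ι)}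
    (hW : ∀ p ∈ W, p ∈ P) (hG : Good T W) : Stat (fun n => CC Q W n ξ) := by
  have : (fun n => CC Q W n ξ) = fun n => FF W n ξ := by
    funext n; exact h.CC_vac n W hG
  rw [this]
  exact hP.stat W hW

theorem FQ.normCC (h : FQ Q ξ T) {P : Set (Lt H ι)} (hP : Letters T ξ P) {W : List (Lt H ι)}
    (hW : ∀ p ∈ W, p ∈ P) (hG : Good T W) (n : ℤ) : ‖CC Q W n ξ‖ ≤ 1 := by
  rw [h.CC_vac n W hG]
  refine (ContinuousLinearMap.le_opNorm _ _).trans ?_
  rw [h.unit, mul_one]
  exact norm_FF_le hP hW n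

/-- one term of the decomposition of a word -/
theorem FQ.term (h : FQ Q ξ T) {P : Set (Lt H ι)} (hP : Letters T ξ P) {V W : List (Lt H ι)}
    (hV : ∀ p ∈ V, p ∈ P) (hGV : Good T V) (hW : ∀ p ∈ W, p ∈ P) (hGW : Good T W) (N : ℕ)
    (D : ℕ → (H →L[ℂ] H)) (B : ℝ)
    (hB : ∀ z : ℂ, ‖z‖ = 1 → ‖∑ n ∈ range N, z ^ n • D n‖ ≤ B) :
    ‖∑ n ∈ range N, CC Q V n * D n * AA Q W n‖ ≤ B := by
  have hB0 : 0 ≤ B := (norm_nonneg _).trans (hB 1 norm_one)
  have hW' : ∀ p ∈ ad W, p ∈ P := by
    intro p hp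
    simp only [ad, List.mem_reverse, List.mem_map] at hp
    obtain ⟨q, hq, rfl⟩ := hp
    exact hP.sl q (hW q hq)
  have hGW' := h.good_ad hGW
  have := transfer (h.dom hGV) (h.statCC hP hV hGV) (h.dom hGW') (h.statCC hP hW' hGW') N D B hB
  refine (le_of_eq ?_).trans (this.trans ?_)
  · congr 1
  · calc _ ≤ 1 * 1 * B := by
          gcongr
          · exact h.normCC hP hV hGV 0
          · exact h.normCC hP hW' hGW' 0
      _ = B := by ring

theorem FQ.words_aux (h : FQ Q ξ T) {P : Set (Lt H ι)} (hP : Letters T ξ P) (N : ℕ) (c : ℕ → ℂ)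
    (B0 B1 : ℝ) (hB0 : ∀ z : ℂ, ‖z‖ = 1 → ‖∑ n ∈ range N, z ^ n * c n‖ ≤ B0) :
    ∀ (W V : List (Lt H ι)), (∀ p ∈ V ++ W, p ∈ P) → Good T (V ++ W) →
    (∀ p ∈ W, ∀ z : ℂ, ‖z‖ = 1 →
      ‖∑ n ∈ range N, z ^ n • (c n • di Q (p.1 n) (p.2 n))‖ ≤ B1) →
    ‖∑ n ∈ range N, c n • (CC Q V n * FF W n)‖ ≤ (W.length + 1) * B0 + W.length * B1 := by
  have hsc : ∀ z : ℂ, ‖z‖ = 1 → ‖∑ n ∈ range N, z ^ n • (c n • (1 : H →L[ℂ] H))‖ ≤ B0 := by
    intro z hz
    have e : ∑ n ∈ range N, z ^ n • (c n • (1 : H →L[ℂ] H)) =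
        (∑ n ∈ range N, z ^ n * c n) • (1 : H →L[ℂ] H) := by
      rw [Finset.sum_smul]
      exact Finset.sum_congr rfl fun n _ => smul_smul _ _ _
    rw [e, norm_smul]
    calc _ ≤ B0 * 1 := by
          gcongr
          · exact (norm_nonneg _).trans (hB0 z hz)
          · exact hB0 z hz
          · exact ContinuousLinearMap.norm_id_le
      _ = B0 := mul_one _
  intro W
  induction W with
  | nil =>
    intro V hV hG _
    rw [List.append_nil] at hV hG
    have := h.term hP hV hG (W := []) (by simp) ⟨by simp, by simp⟩ N (fun n => c n • 1) B0 hsc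
    simp only [List.length_nil, Nat.cast_zero, zero_add, one_mul, zero_mul, add_zero]
    refine (le_of_eq ?_).trans this
    congr 1
    refine Finset.sum_congr rfl fun n _ => ?_
    rw [AA_nil, mul_one, mul_smul_comm, mul_one]
    simp [FF]
  | cons p W ih =>
    intro V hV hG hB1
    have hpP : p ∈ P := hV p (by simp)
    have hG2 : Good T (p :: W) :=
      ⟨fun q hq => hG.mem q (List.mem_append_right _ hq), (List.isChain_append.1 hG.alt).2.1⟩
    have hGV : Good T V :=
      ⟨fun q hq => hG.mem q (List.mem_append_left _ hq), (List.isChain_append.1 hG.alt).1⟩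
    have happ : V ++ (p :: W) = (V ++ [p]) ++ W := by simp
    have ih' := ih (V ++ [p]) (by rw [← happ]; exact hV) (by rw [← happ]; exact hG)
      (fun q hq => hB1 q (List.mem_cons_of_mem _ hq))
    have t1 := h.term hP (V := V) (W := W) (fun q hq => hV q (List.mem_append_left _ hq)) hGV
      (fun q hq => hV q (by simp [hq])) hG2.tail N
      (fun n => c n • di Q (p.1 n) (p.2 n)) B1 (hB1 p (by simp))
    have t2 := h.term hP (V := V) (W := p :: W) (fun q hq => hV q (List.mem_append_left _ hq)) hGV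
      (fun q hq => hV q (List.mem_append_right _ hq)) hG2 N (fun n => c n • 1) B0 hsc
    have key : ∀ n : ℕ, c n • (CC Q V n * FF (p :: W) n) =
        c n • (CC Q (V ++ [p]) n * FF W n) + CC Q V n * (c n • di Q (p.1 n) (p.2 n)) * AA Q W n +
        CC Q V n * (c n • 1) * AA Q (p :: W) n := by
      intro n
      have hne : ∀ q ∈ W.head?, p.1 n ≠ q.1 n := by
        intro q hq
        cases W with
        | nil => simp at hq
        | cons q' W' =>
          simp only [List.head?_cons, Option.mem_def, Option.some.injEq] at hq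
          subst hq
          exact (List.isChain_cons_cons.1 hG2.alt).1 n
      have hQ := h.Q_FF n W hG2.tail (p.1 n) hne
      have hd := h.decomp (hG2.mem p (by simp) n)
      have e1 : di Q (p.1 n) (p.2 n) * FF W n = di Q (p.1 n) (p.2 n) * AA Q W n := by
        unfold di
        rw [mul_assoc, hQ, ← mul_assoc]
      have e2 : an Q (p.1 n) (p.2 n) * FF W n = an Q (p.1 n) (p.2 n) * AA Q W n := by
        unfold an
        rw [mul_assoc, hQ, ← mul_assoc]
      have e3 : CC Q (V ++ [p]) n = CC Q V n * cr Q (p.1 n) (p.2 n) := by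
        rw [CC_append]; simp [CC]
      rw [FF_cons, h.AA_cons, e3]
      conv_lhs => rw [hd]
      rw [add_mul, add_mul, e1, e2, mul_add, mul_add, smul_add, smul_add]
      simp only [mul_assoc, smul_mul_assoc, mul_smul_comm, one_mul]
    rw [Finset.sum_congr rfl fun n _ => key n, Finset.sum_add_distrib, Finset.sum_add_distrib]
    refine (norm_add₃_le).trans ?_
    rw [List.length_cons]
    push_cast
    linarith

/-- **The inequality for alternating words.** -/
theorem FQ.words (h : FQ Q ξ T) {P : Set (Lt H ι)} (hP : Letters T ξ P) (N : ℕ) (c : ℕ → ℂ)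
    (B0 B1 : ℝ) (hB0 : ∀ z : ℂ, ‖z‖ = 1 → ‖∑ n ∈ range N, z ^ n * c n‖ ≤ B0)
    (W : List (Lt H ι)) (hW : ∀ p ∈ W, p ∈ P) (hG : Good T W)
    (hB1 : ∀ p ∈ W, ∀ z : ℂ, ‖z‖ = 1 →
      ‖∑ n ∈ range N, z ^ n • (c n • di Q (p.1 n) (p.2 n))‖ ≤ B1) :
    ‖∑ n ∈ range N, c n • FF W n‖ ≤ (W.length + 1) * B0 + W.length * B1 := by
  have := h.words_aux hP N c B0 B1 hB0 W [] (by simpa using hW) (by simpa using hG) hB1
  simpa [CC] using this

end Pool.Agent.TH254.FP
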